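import Mathlib

/-! Plane geometry in `ℂ`: directions, angles of more than sixty degrees, pigeonhole lemmas. -/

namespace Pool.Agent.MP_06c78e_co.H40

open Real

/-- Inner product. -/
def ip (u v : ℂ) : ℝ := u.re * v.re + u.im * v.im

/-- `θ` is a polar angle of `v` (every `θ` is a polar angle of `0`). -/
def Dir (v : ℂ) (θ : ℝ) : Prop := v.re = ‖v‖ * cos θ ∧ v.im = ‖v‖ * sin θ

/-- The angle between `u` and `v` is more than sixty degrees (both are then nonzero). -/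
def Far (u v : ℂ) : Prop := 2 * ip u v < ‖u‖ * ‖v‖

/-- `v` has a polar angle within `ε` of `c`. -/
def Near (c ε : ℝ) (v : ℂ) : Prop := ∃ x, |x - c| ≤ ε ∧ Dir v x

/-- The unit vector with angle `θ`. -/
noncomputable def uv (θ : ℝ) : ℂ := ⟨cos θ, sin θ⟩

theorem ip_comm (u v : ℂ) : ip u v = ip v u := by unfold ip; ring
theorem ip_add_left (u v w : ℂ) : ip (u + v) w = ip u w + ip v w := by simp [ip]; ring
theorem ip_add_right (u v w : ℂ) : ip w (u + v) = ip w u + ip w v := by simp [ip]; ring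
theorem ip_sub_left (u v w : ℂ) : ip (u - v) w = ip u w - ip v w := by simp [ip]; ring
theorem ip_sub_right (u v w : ℂ) : ip w (u - v) = ip w u - ip w v := by simp [ip]; ring
theorem ip_neg_left (u w : ℂ) : ip (-u) w = -ip u w := by simp [ip]; ring
theorem ip_neg_right (u w : ℂ) : ip w (-u) = -ip w u := by simp [ip]; ring

theorem sq_norm (u : ℂ) : ‖u‖ ^ 2 = u.re ^ 2 + u.im ^ 2 := by
  rw [Complex.sq_norm, Complex.normSq_apply]; ring

theorem ip_self (u : ℂ) : ip u u = ‖u‖ ^ 2 := by rw [sq_norm, ip]; ring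

theorem sq_norm_sub (u v : ℂ) : ‖u - v‖ ^ 2 = ‖u‖ ^ 2 + ‖v‖ ^ 2 - 2 * ip u v := by
  simp only [sq_norm, ip, Complex.sub_re, Complex.sub_im]; ring

theorem sq_norm_add (u v : ℂ) : ‖u + v‖ ^ 2 = ‖u‖ ^ 2 + ‖v‖ ^ 2 + 2 * ip u v := by
  simp only [sq_norm, ip, Complex.add_re, Complex.add_im]; ring

theorem abs_ip_le (u v : ℂ) : |ip u v| ≤ ‖u‖ * ‖v‖ := by
  refine abs_le_of_sq_le_sq' ?_ (by positivity) |> abs_le.2
  rw [mul_pow, sq_norm, sq_norm, ip]
  nlinarith [sq_nonneg (u.re * v.im - u.im * v.re)]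

theorem dist_lt_iff_sq (a b c d : ℂ) : dist a b < dist c d ↔ ‖a - b‖ ^ 2 < ‖c - d‖ ^ 2 := by
  rw [dist_eq_norm, dist_eq_norm, sq_lt_sq₀ (norm_nonneg _) (norm_nonneg _)]

theorem dist_le_iff_sq (a b c d : ℂ) : dist a b ≤ dist c d ↔ ‖a - b‖ ^ 2 ≤ ‖c - d‖ ^ 2 := by
  rw [dist_eq_norm, dist_eq_norm, sq_le_sq₀ (norm_nonneg _) (norm_nonneg _)]

/-- `t` is closer to `a` than to `w`. -/
theorem closer_iff (t a w : ℂ) :
    dist t a < dist t w ↔ 2 * ip (t - a) (w - a) < ‖w - a‖ ^ 2 := by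
  rw [dist_lt_iff_sq, show t - w = (t - a) - (w - a) by ring, sq_norm_sub (t - a)]
  constructor <;> intro h <;> linarith

theorem closer_iff' (t a w : ℂ) :
    dist t a ≤ dist t w ↔ 2 * ip (t - a) (w - a) ≤ ‖w - a‖ ^ 2 := by
  rw [dist_le_iff_sq, show t - w = (t - a) - (w - a) by ring, sq_norm_sub (t - a)]
  constructor <;> intro h <;> linarith

/-- `b` is closer to `g` than `a` is. -/
theorem closer_iff_sum (g a b : ℂ) :
    dist g b < dist g a ↔ 0 < ip (b - a) (g - a) + ip (b - a) (g - b) := by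
  rw [dist_lt_iff_sq, sq_norm, sq_norm]
  simp only [ip, Complex.sub_re, Complex.sub_im]
  constructor <;> intro h <;> nlinarith

@[simp] theorem norm_uv (θ : ℝ) : ‖uv θ‖ = 1 := by
  have : ‖uv θ‖ ^ 2 = 1 := by rw [sq_norm]; simp [uv]
  nlinarith [norm_nonneg (uv θ)]

theorem uv_ne (θ : ℝ) : uv θ ≠ 0 := by
  rw [← norm_ne_zero_iff]; simp

theorem dir_uv (θ : ℝ) : Dir (uv θ) θ := by
  rw [Dir, norm_uv]; simp [uv]

theorem Dir.ip_eq {u v : ℂ} {x y : ℝ} (hu : Dir u x) (hv : Dir v y) :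
    ip u v = ‖u‖ * ‖v‖ * cos (x - y) := by
  rw [ip, hu.1, hu.2, hv.1, hv.2, cos_sub]; ring

theorem Dir.ip_uv {u : ℂ} {x : ℝ} (hu : Dir u x) (y : ℝ) : ip u (uv y) = ‖u‖ * cos (x - y) := by
  rw [hu.ip_eq (dir_uv y)]; simp

theorem ip_uv_le (u : ℂ) (y : ℝ) : ip u (uv y) ≤ ‖u‖ := by
  have := abs_ip_le u (uv y)
  rw [norm_uv, mul_one] at this
  exact (abs_le.1 this).2

theorem Dir.add_int {v : ℂ} {x : ℝ} (h : Dir v x) (n : ℤ) : Dir v (x + n * (2 * π)) := by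
  rw [Dir, cos_add_int_mul_two_pi, sin_add_int_mul_two_pi]; exact h

theorem Dir.add_two_pi {v : ℂ} {x : ℝ} (h : Dir v x) : Dir v (x + 2 * π) := by
  rw [Dir, cos_add_two_pi, sin_add_two_pi]; exact h

theorem Dir.sub_two_pi {v : ℂ} {x : ℝ} (h : Dir v x) : Dir v (x - 2 * π) := by
  rw [Dir, cos_sub_two_pi, sin_sub_two_pi]; exact h

theorem Dir.neg_add {v : ℂ} {x : ℝ} (h : Dir v x) : Dir (-v) (x + π) := by
  rw [Dir, cos_add_pi, sin_add_pi, norm_neg, Complex.neg_re, Complex.neg_im, h.1, h.2]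
  constructor <;> ring

theorem Dir.neg_sub {v : ℂ} {x : ℝ} (h : Dir v x) : Dir (-v) (x - π) := by
  rw [Dir, cos_sub_pi, sin_sub_pi, norm_neg, Complex.neg_re, Complex.neg_im, h.1, h.2]
  constructor <;> ring

theorem Dir.swap_add {a b : ℂ} {x : ℝ} (h : Dir (a - b) x) : Dir (b - a) (x + π) := by
  simpa using h.neg_add

theorem Dir.swap_sub {a b : ℂ} {x : ℝ} (h : Dir (a - b) x) : Dir (b - a) (x - π) := by
  simpa using h.neg_sub

theorem exists_dir (v : ℂ) (c : ℝ) : ∃ x, c - π < x ∧ x ≤ c + π ∧ Dir v x := by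
  have h0 : Dir v (Complex.arg v) :=
    ⟨(Complex.norm_mul_cos_arg v).symm, (Complex.norm_mul_sin_arg v).symm⟩
  have h1 := toIocMod_mem_Ioc two_pi_pos (c - π) (Complex.arg v)
  refine ⟨_, h1.1, by linarith [h1.2], ?_⟩
  have := h0.add_int (-toIocDiv two_pi_pos (c - π) (Complex.arg v))
  convert this using 1
  unfold toIocMod
  simp only [zsmul_eq_mul, Int.cast_neg]; ring

theorem Dir.unique {v : ℂ} {x y : ℝ} (hv : v ≠ 0) (hx : Dir v x) (hy : Dir v y) :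
    ∃ n : ℤ, y = x + n * (2 * π) := by
  have h1 := hy.ip_eq hx
  rw [ip_self] at h1
  have h2 : 0 < ‖v‖ := norm_pos_iff.2 hv
  have h3 : cos (y - x) = 1 := by
    have : ‖v‖ * ‖v‖ * (cos (y - x) - 1) = 0 := by linarith
    rcases mul_eq_zero.1 this with h | h
    · exact absurd h (by positivity)
    · linarith
  obtain ⟨n, hn⟩ := (cos_eq_one_iff _).1 h3
  exact ⟨n, by linarith⟩

theorem Dir.eq_of_lt {v : ℂ} {x y : ℝ} (hv : v ≠ 0) (hx : Dir v x) (hy : Dir v y)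
    (h : |x - y| < 2 * π) : x = y := by
  obtain ⟨n, rfl⟩ := hx.unique hv hy
  have h1 : |(n : ℝ)| < 1 := by
    rw [show x - (x + n * (2 * π)) = -(n * (2 * π)) by ring, abs_neg, abs_mul,
      abs_of_pos two_pi_pos] at h
    nlinarith [pi_pos]
  have h2 : n = 0 := by
    have : |n| < 1 := by exact_mod_cast h1
    rw [abs_lt] at this; omega
  simp [h2]

theorem Far.symm {u v : ℂ} (h : Far u v) : Far v u := by
  rw [Far, ip_comm, mul_comm ‖v‖]; exact h

theorem Far.ne_left {u v : ℂ} (h : Far u v) : u ≠ 0 := by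
  rintro rfl; simp [Far, ip] at h

theorem Far.ne_right {u v : ℂ} (h : Far u v) : v ≠ 0 := h.symm.ne_left

theorem far_iff {u v : ℂ} {x y : ℝ} (hu0 : u ≠ 0) (hv0 : v ≠ 0) (hu : Dir u x) (hv : Dir v y) :
    Far u v ↔ cos (x - y) < 1 / 2 := by
  have : 0 < ‖u‖ * ‖v‖ := mul_pos (norm_pos_iff.2 hu0) (norm_pos_iff.2 hv0)
  rw [Far, hu.ip_eq hv]
  constructor <;> intro h <;> nlinarith

theorem half_le_cos {x : ℝ} (h : |x| ≤ π / 3) : 1 / 2 ≤ cos x := by
  rw [← cos_abs, ← cos_pi_div_three]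
  exact cos_le_cos_of_nonneg_of_le_pi (abs_nonneg _) (by linarith [pi_pos]) h

/-- Monotonicity of the cosine in the absolute value of the angle. -/
theorem cos_le_cos_abs {x a : ℝ} (h : |x| ≤ a) (ha : a ≤ π) : cos a ≤ cos x := by
  rw [← cos_abs x]
  exact cos_le_cos_of_nonneg_of_le_pi (abs_nonneg _) ha h

theorem abs_le_of_cos_le {x a : ℝ} (ha : 0 ≤ a) (hx : |x| ≤ π) (h : cos a ≤ cos x) : |x| ≤ a := by
  by_contra h1
  have := cos_lt_cos_of_nonneg_of_le_pi ha hx (not_le.1 h1)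
  rw [cos_abs] at this
  linarith

theorem abs_lt_of_cos_lt {x a : ℝ} (ha : 0 ≤ a) (hx : |x| ≤ π) (h : cos a < cos x) : |x| < a := by
  by_contra h1
  have := cos_le_cos_of_nonneg_of_le_pi ha hx (not_lt.1 h1)
  rw [cos_abs] at this
  linarith

theorem cos_pos_abs {x : ℝ} (h : |x| < π / 2) : 0 < cos x :=
  cos_pos_of_mem_Ioo ⟨by linarith [(abs_lt.1 h).1], (abs_lt.1 h).2⟩

theorem cos_nonneg_abs {x : ℝ} (h : |x| ≤ π / 2) : 0 ≤ cos x :=
  cos_nonneg_of_mem_Icc ⟨by linarith [(abs_le.1 h).1], (abs_le.1 h).2⟩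

/-- The cosine is `1`-Lipschitz. -/
theorem cos_ge_sub {x a δ : ℝ} (h : |x - a| ≤ δ) : cos a - δ ≤ cos x := by
  have := abs_cos_sub_cos_le a x
  rw [abs_sub_comm a x] at this
  linarith [le_abs_self (cos a - cos x)]

theorem cos_le_add {x a δ : ℝ} (h : |x - a| ≤ δ) : cos x ≤ cos a + δ := by
  have := abs_cos_sub_cos_le x a
  linarith [le_abs_self (cos x - cos a)]

/-- Within `π / 6 + δ` of zero the cosine is at least `0.866 - δ`. -/
theorem cos_ge_sixth {x δ : ℝ} (hδ : 0 ≤ δ) (hδ' : δ ≤ 1) (h : |x| ≤ π / 6 + δ) :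
    0.866 - δ ≤ cos x := by
  have h1 := cos_le_cos_abs h (by linarith [pi_gt_three])
  have h2 := cos_ge_sub (x := π / 6 + δ) (a := π / 6) (δ := δ) (by simp [abs_of_nonneg hδ])
  have h3 : (0.866 : ℝ) ≤ cos (π / 6) := by
    rw [cos_pi_div_six]
    have : (1.732 : ℝ) ≤ √3 := Real.le_sqrt_of_sq_le (by norm_num)
    linarith
  linarith

/-- Within `π / 3 + δ` of zero the cosine is at least `1 / 2 - δ`. -/
theorem cos_ge_third {x δ : ℝ} (hδ : 0 ≤ δ) (hδ' : δ ≤ 1) (h : |x| ≤ π / 3 + δ) :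
    1 / 2 - δ ≤ cos x := by
  have h1 := cos_le_cos_abs h (by linarith [pi_gt_three])
  have h2 := cos_ge_sub (x := π / 3 + δ) (a := π / 3) (δ := δ) (by simp [abs_of_nonneg hδ])
  rw [cos_pi_div_three] at h2
  linarith

/-- A small cosine forces the angle to be almost right or more. -/
theorem lt_abs_of_cos_lt {x κ : ℝ} (hκ : 0 ≤ κ) (hκ' : κ ≤ 1) (h : 2 * cos x < κ) :
    π / 2 - κ < |x| := by
  by_contra h1
  have h2 := cos_le_cos_abs (not_lt.1 h1) (by linarith [pi_pos])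
  rw [cos_pi_div_two_sub] at h2
  have h3 := mul_le_sin hκ (by linarith [pi_gt_three] : κ ≤ π / 2)
  have h4 : 1 / 2 ≤ 2 / π := by
    rw [div_le_div_iff₀ (by norm_num) pi_pos]; linarith [pi_lt_four]
  nlinarith

theorem Far.lt_abs {u v : ℂ} {x y : ℝ} (h : Far u v) (hu : Dir u x) (hv : Dir v y) :
    π / 3 < |x - y| := by
  rw [far_iff h.ne_left h.ne_right hu hv] at h
  by_contra h1
  linarith [half_le_cos (not_lt.1 h1)]

theorem not_far_of_abs_le {u v : ℂ} {x y : ℝ} (hu : Dir u x) (hv : Dir v y)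
    (h : |x - y| ≤ π / 3) : ¬Far u v := fun hf => absurd (hf.lt_abs hu hv) (not_lt.2 h)

theorem dir_of_not_far {u v : ℂ} {x : ℝ} (hu0 : u ≠ 0) (hv0 : v ≠ 0) (h : ¬Far u v)
    (hu : Dir u x) : ∃ y, |y - x| ≤ π / 3 ∧ Dir v y := by
  obtain ⟨y, h1, h2, h3⟩ := exists_dir v x
  refine ⟨y, ?_, h3⟩
  rw [far_iff hu0 hv0 hu h3, not_lt, ← cos_pi_div_three] at h
  rw [abs_sub_comm]
  exact abs_le_of_cos_le (by positivity) (abs_le.2 ⟨by linarith, by linarith⟩) h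

theorem norm_sub_le_of_not_far {u v : ℂ} (h : ¬Far u v) : ‖u - v‖ ≤ max ‖u‖ ‖v‖ := by
  rw [Far, not_lt] at h
  have e := sq_norm_sub u v
  have hu := norm_nonneg u
  have hv := norm_nonneg v
  rcases le_total ‖u‖ ‖v‖ with h2 | h2
  · rw [max_eq_right h2]
    exact abs_le_of_sq_le_sq' (by nlinarith) hv |>.2
  · rw [max_eq_left h2]
    exact abs_le_of_sq_le_sq' (by nlinarith) hu |>.2

/-- Pigeonhole on an interval. -/
theorem pigeon (n : ℕ) (a δ : ℝ) (hδ : 0 < δ) (f : Fin (n + 1) → ℝ)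
    (h1 : ∀ i, a < f i) (h2 : ∀ i, f i ≤ a + n * δ) : ∃ i j, i ≠ j ∧ |f i - f j| < δ := by
  have hb : ∀ i, ⌈(f i - a) / δ⌉₊ - 1 < n := fun i => by
    have : ⌈(f i - a) / δ⌉₊ ≤ n := Nat.ceil_le.2 (by rw [div_le_iff₀ hδ]; linarith [h2 i])
    have : 0 < ⌈(f i - a) / δ⌉₊ := Nat.ceil_pos.2 (div_pos (by linarith [h1 i]) hδ)
    omega
  obtain ⟨i, j, hij, h⟩ := Fintype.exists_ne_map_eq_of_card_lt
    (fun i => (⟨_, hb i⟩ : Fin n)) (by simp)
  refine ⟨i, j, hij, ?_⟩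
  have p : ∀ i, 0 < (f i - a) / δ := fun i => div_pos (by linarith [h1 i]) hδ
  have e : ⌈(f i - a) / δ⌉₊ = ⌈(f j - a) / δ⌉₊ := by
    have a1 := Nat.ceil_pos.2 (p i)
    have a2 := Nat.ceil_pos.2 (p j)
    simp only [Fin.mk.injEq] at h
    omega
  have a1 := Nat.le_ceil ((f i - a) / δ)
  have a2 := Nat.le_ceil ((f j - a) / δ)
  have a3 := Nat.ceil_lt_add_one (p i).le
  have a4 := Nat.ceil_lt_add_one (p j).le
  rw [e] at a1 a3
  have : |(f i - f j) / δ| < 1 := by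
    rw [show (f i - f j) / δ = (f i - a) / δ - (f j - a) / δ by ring, abs_lt]
    constructor <;> linarith
  rwa [abs_div, abs_of_pos hδ, div_lt_one hδ] at this

/-- Among six vectors two are at most sixty degrees apart. -/
theorem six (z : Fin 6 → ℂ) : ∃ i j, i ≠ j ∧ ¬Far (z i) (z j) := by
  by_contra hcon
  push Not at hcon
  obtain ⟨x, -, -, hx⟩ := exists_dir (z 0) 0
  choose y h1 h2 h3 using fun i : Fin 5 => exists_dir (z i.succ) (x + π)
  obtain ⟨i, j, hij, h⟩ := pigeon 4 (x + π / 3) (π / 3) (by positivity) y (fun i => by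
    have := (hcon _ _ (Fin.succ_ne_zero i)).lt_abs (h3 i) hx
    rw [abs_of_pos (by linarith [h1 i])] at this
    linarith) (fun i => by
    have := (hcon _ _ (Fin.succ_ne_zero i)).lt_abs (h3 i) hx.add_two_pi
    rw [abs_of_nonpos (by linarith [h2 i])] at this
    push_cast
    linarith)
  have := (hcon _ _ (fun e => hij (Fin.succ_injective _ e))).lt_abs (h3 i) (h3 j)
  linarith

/-- If five vectors are pairwise far apart, every vector is within sixty degrees of one of them. -/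
theorem cover {v : Fin 5 → ℂ} (h : ∀ i j, i ≠ j → Far (v i) (v j)) (d : ℂ) :
    ∃ k, ¬Far (v k) d := by
  obtain ⟨i, j, hij, e⟩ := six (Fin.cons d v)
  induction i using Fin.cases <;> induction j using Fin.cases
  · exact absurd rfl hij
  · exact ⟨_, fun h => e h.symm⟩
  · exact ⟨_, e⟩
  · exact absurd (h _ _ (fun e' => hij (congrArg Fin.succ e'))) e

/-- Among nine vectors two are at most forty-five degrees apart. -/
theorem nine (z : Fin 9 → ℂ) : ∃ i j, i ≠ j ∧ 0.7 * (‖z i‖ * ‖z j‖) ≤ ip (z i) (z j) := by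
  choose y h1 h2 h3 using fun i : Fin 9 => exists_dir (z i) 0
  obtain ⟨i, j, hij, h⟩ := pigeon 8 (0 - π) (π / 4) (by positivity) y h1 (fun i => by
    push_cast; linarith [h2 i])
  refine ⟨i, j, hij, ?_⟩
  have a1 := cos_le_cos_abs h.le (by linarith [pi_pos])
  rw [cos_pi_div_four] at a1
  have : (1.4 : ℝ) ≤ √2 := Real.le_sqrt_of_sq_le (by norm_num)
  rw [(h3 i).ip_eq (h3 j), mul_comm]
  exact mul_le_mul_of_nonneg_left (by linarith) (by positivity)

/-- Sorting a finite set along a real function with gaps. -/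
theorem sorted {ι : Type} (S : Finset ι) (n : ℕ) (hn : S.card = n) (f : ι → ℝ) (δ : ℝ)
    (h : ∀ i ∈ S, ∀ j ∈ S, i ≠ j → δ < |f i - f j|) :
    ∃ g : Fin n → ι, (∀ i, g i ∈ S) ∧ (∀ a ∈ S, ∃ i, g i = a) ∧
      ∀ i j, i < j → f (g i) + δ < f (g j) := by
  let e := (S.equivFinOfCardEq hn).symm
  let σ := Tuple.sort (fun i => f (e i))
  refine ⟨fun i => e (σ i), fun i => (e (σ i)).2, fun a ha => ⟨σ.symm (e.symm ⟨a, ha⟩), by simp⟩,
    fun i j hij => ?_⟩
  have a1 : f (e (σ i)) ≤ f (e (σ j)) := Tuple.monotone_sort (fun i => f (e i)) hij.le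
  have a2 := h _ (e (σ i)).2 _ (e (σ j)).2 (fun h => hij.ne
    (σ.injective (e.injective (Subtype.ext h))))
  rw [abs_of_nonpos (by linarith)] at a2
  linarith

theorem Near.mono {c ε ε' : ℝ} {v : ℂ} (h : Near c ε v) (e : ε ≤ ε') : Near c ε' v :=
  h.imp fun _ hx => ⟨hx.1.trans e, hx.2⟩

theorem Near.shift {c c' ε δ : ℝ} {v : ℂ} (h : Near c ε v) (e : |c - c'| ≤ δ) :
    Near c' (ε + δ) v :=
  h.imp fun x hx => ⟨(abs_sub_le x c c').trans (add_le_add hx.1 e), hx.2⟩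

/-- Change of the reference direction along a vector lying in both cones. -/
theorem Near.trans {c c' ε ε' δ : ℝ} {u v : ℂ} (hv : v ≠ 0) (h1 : Near c ε v) (h2 : Near c' δ v)
    (h : Near c ε' u) : Near c' (ε + ε' + δ) u := by
  obtain ⟨x, a1, a2⟩ := h1
  obtain ⟨y, b1, b2⟩ := h2
  obtain ⟨z, c1, c2⟩ := h
  obtain ⟨n, rfl⟩ := a2.unique hv b2
  refine ⟨_, ?_, c2.add_int n⟩
  rw [abs_le] at *
  constructor <;> linarith

/-- A small perturbation changes the direction only a little. -/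
theorem Dir.perturb {u v : ℂ} {x κ : ℝ} (hv : Dir v x) (hκ0 : 0 ≤ κ) (hκ : κ ≤ 1 / 5)
    (h : ‖u‖ ≤ κ * ‖v‖) : Near x (2 * κ) (v + u) := by
  by_cases h0 : v = 0
  · subst h0
    have : u = 0 := by simpa using h
    subst this
    exact ⟨x, by simpa using hκ0, by simp [Dir]⟩
  have hp : 0 < ‖v‖ := norm_pos_iff.2 h0
  obtain ⟨y, h1, h2, h3⟩ := exists_dir (v + u) x
  refine ⟨y, ?_, h3⟩
  have a1 := h3.ip_uv x
  have a2 := h3.ip_uv (x + π / 2)
  rw [ip_add_left, hv.ip_uv] at a1 a2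
  have b1 := abs_ip_le u (uv x)
  have b2 := abs_ip_le u (uv (x + π / 2))
  rw [norm_uv, mul_one] at b1 b2
  rw [sub_self, cos_zero] at a1
  rw [show x - (x + π / 2) = -(π / 2) by ring, cos_neg, cos_pi_div_two,
    show y - (x + π / 2) = (y - x) - π / 2 by ring, cos_sub_pi_div_two] at a2
  have c1 : ‖v‖ - ‖u‖ ≤ ‖v + u‖ := by
    have := norm_sub_le (v + u) u
    rw [add_sub_cancel_right] at this
    linarith
  have c2 : 0 < ‖v + u‖ := by nlinarith
  have c3 : 0 < cos (y - x) := by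
    by_contra hc
    nlinarith [(abs_le.1 b1).1]
  have c4 : |y - x| < π / 2 :=
    abs_lt_of_cos_lt (by positivity) (abs_le.2 ⟨by linarith, by linarith⟩) (by simpa using c3)
  have c5 : ‖v + u‖ * |sin (y - x)| ≤ ‖u‖ := by
    rw [← abs_of_pos c2, ← abs_mul, ← a2]; simpa using b2
  have c6 := mul_abs_le_abs_sin c4.le
  have c7 : |sin (y - x)| * (4 / 5) ≤ κ := by
    have : ‖v‖ * (4 / 5) ≤ ‖v + u‖ := by nlinarith
    have : ‖v‖ * (|sin (y - x)| * (4 / 5)) ≤ ‖v‖ * κ := by nlinarith [abs_nonneg (sin (y - x))]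
    exact le_of_mul_le_mul_left this hp
  have c8 : 5 / 8 ≤ 2 / π := by
    rw [div_le_div_iff₀ (by norm_num) pi_pos]; linarith [pi_lt_d2]
  nlinarith [abs_nonneg (y - x)]

theorem Near.perturb {u v : ℂ} {c ε κ : ℝ} (hv : Near c ε v) (hκ0 : 0 ≤ κ) (hκ : κ ≤ 1 / 5)
    (h : ‖u‖ ≤ κ * ‖v‖) : Near c (2 * κ + ε) (v + u) := by
  obtain ⟨x, h1, h2⟩ := hv
  exact (h2.perturb hκ0 hκ h).shift h1

/-- Two spokes `w` of `a` and `u` of `b`, such that `u` is closer to `a` than to `w` and `w` is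
closer to `b` than to `u`: the basic inequalities. -/
theorem qd0 {a b w u : ℂ} {α θ θ' : ℝ} (h1 : dist u a < dist u w) (h2 : dist w b < dist w u)
    (hw : w ≠ a) (hu : u ≠ b) (hd : Dir (b - a) α) (hn : Dir (w - a) θ) (hn' : Dir (u - b) θ') :
    2 * ‖b - a‖ * cos (θ - α) + 2 * cos (θ - θ') * ‖u - b‖ < ‖w - a‖ ∧
      2 * cos (θ - θ') * ‖w - a‖ - 2 * ‖b - a‖ * cos (θ' - α) < ‖u - b‖ := by
  have p1 : 0 < ‖w - a‖ := norm_pos_iff.2 (sub_ne_zero.2 hw)
  have p2 : 0 < ‖u - b‖ := norm_pos_iff.2 (sub_ne_zero.2 hu)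
  rw [closer_iff, show u - a = (b - a) + (u - b) by ring, ip_add_left, hd.ip_eq hn,
    hn'.ip_eq hn, ← cos_neg (α - θ), ← cos_neg (θ' - θ), neg_sub, neg_sub] at h1
  rw [closer_iff, show w - b = (w - a) - (b - a) by ring, ip_sub_left, hd.ip_eq hn',
    hn.ip_eq hn', ← cos_neg (α - θ'), neg_sub] at h2
  constructor
  · exact lt_of_mul_lt_mul_left (by nlinarith) p1.le
  · exact lt_of_mul_lt_mul_left (by nlinarith) p2.le

/-- Bounds for the lengths of the two spokes. -/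
theorem qd_len {a b w u : ℂ} {α θ θ' : ℝ} (h1 : dist u a < dist u w) (h2 : dist w b < dist w u)
    (hw : w ≠ a) (hu : u ≠ b) (hd : Dir (b - a) α) (hn : Dir (w - a) θ) (hn' : Dir (u - b) θ')
    (hc : 0 ≤ cos (θ - θ')) :
    (4 * cos (θ - θ') ^ 2 - 1) * ‖w - a‖ <
        ‖b - a‖ * (4 * cos (θ - θ') * cos (θ' - α) - 2 * cos (θ - α)) ∧
      (4 * cos (θ - θ') ^ 2 - 1) * ‖u - b‖ <
        ‖b - a‖ * (2 * cos (θ' - α) - 4 * cos (θ - θ') * cos (θ - α)) := by
  obtain ⟨a1, a2⟩ := qd0 h1 h2 hw hu hd hn hn'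
  have b1 := mul_le_mul_of_nonneg_left a1.le hc
  have b2 := mul_le_mul_of_nonneg_left a2.le hc
  constructor <;> nlinarith

/-- The angular form of the inequalities. -/
theorem qd {a b w u : ℂ} {α θ θ' : ℝ} (h1 : dist u a < dist u w) (h2 : dist w b < dist w u)
    (hw : w ≠ a) (hu : u ≠ b) (hd : Dir (b - a) α) (hn : Dir (w - a) θ) (hn' : Dir (u - b) θ')
    (hc : |θ - θ'| ≤ π / 3) : cos (2 * θ - θ' - α) < 0 ∧ 0 < cos (2 * θ' - θ - α) := by
  have hc' := half_le_cos hc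
  obtain ⟨a1, a2⟩ := qd_len h1 h2 hw hu hd hn hn' (by linarith)
  have k : 0 ≤ 4 * cos (θ - θ') ^ 2 - 1 := by nlinarith
  have b1 := (mul_nonneg k (norm_nonneg _)).trans_lt a1
  have b2 := (mul_nonneg k (norm_nonneg _)).trans_lt a2
  have c1 := (pos_iff_pos_of_mul_pos b1).1 (lt_of_le_of_ne (norm_nonneg _) fun h => by rw [← h] at b1; simp at b1)
  have c2 := (pos_iff_pos_of_mul_pos b2).1 (lt_of_le_of_ne (norm_nonneg _) fun h => by rw [← h] at b2; simp at b2)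
  have e1 : cos (2 * θ - θ' - α) = 2 * cos (θ - θ') * cos (θ - α) - cos (θ' - α) := by
    rw [show 2 * θ - θ' - α = (θ - α) + (θ - θ') by ring,
      show θ' - α = (θ - α) - (θ - θ') by ring, cos_add, cos_sub (θ - α)]; ring
  have e2 : cos (2 * θ' - θ - α) = 2 * cos (θ - θ') * cos (θ' - α) - cos (θ - α) := by
    rw [show 2 * θ' - θ - α = (θ' - α) - (θ - θ') by ring,
      show θ - α = (θ' - α) + (θ - θ') by ring, cos_add, cos_sub (θ' - α)]; ring
  constructor <;> linarith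

/-- The two spokes diverge (counterclockwise side). -/
theorem ql {a b w u : ℂ} {α θ θ' : ℝ} (h1 : dist u a < dist u w) (h2 : dist w b < dist w u)
    (hw : w ≠ a) (hu : u ≠ b) (hd : Dir (b - a) α) (hn : Dir (w - a) θ) (hn' : Dir (u - b) θ')
    (h3 : α + π / 3 < θ) (h4 : θ' < α + 2 * π / 3) : θ' < θ := by
  by_contra h5
  obtain ⟨a1, a2⟩ := qd h1 h2 hw hu hd hn hn' (abs_le.2 ⟨by linarith, by linarith⟩)
  have b1 : π / 2 ≤ 2 * θ - θ' - α := by
    by_contra h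
    linarith [cos_pos_abs (x := 2 * θ - θ' - α) (abs_lt.2 ⟨by linarith [pi_pos], by linarith⟩)]
  linarith [cos_nonpos_of_pi_div_two_le_of_le (x := 2 * θ' - θ - α) (by linarith) (by linarith)]

/-- The two spokes diverge (clockwise side). -/
theorem ql' {a b w u : ℂ} {α θ θ' : ℝ} (h1 : dist u a < dist u w) (h2 : dist w b < dist w u)
    (hw : w ≠ a) (hu : u ≠ b) (hd : Dir (b - a) α) (hn : Dir (w - a) θ) (hn' : Dir (u - b) θ')
    (h3 : θ < α - π / 3) (h4 : α - 2 * π / 3 < θ') : θ < θ' := by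
  by_contra h5
  obtain ⟨a1, a2⟩ := qd h1 h2 hw hu hd hn hn' (abs_le.2 ⟨by linarith, by linarith⟩)
  have b1 : 2 * θ - θ' - α ≤ -(π / 2) := by
    by_contra h
    linarith [cos_pos_abs (x := 2 * θ - θ' - α) (abs_lt.2 ⟨by linarith, by linarith [pi_pos]⟩)]
  rw [← cos_neg] at a2
  linarith [cos_nonpos_of_pi_div_two_le_of_le (x := -(2 * θ' - θ - α)) (by linarith) (by linarith)]

end Pool.Agent.MP_06c78e_co.H40
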