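import Pool.Agent.MP_06c78e_co.Defs
import Pool.Agent.MP_06c78e_co.H40.Geo

/-! Graphs in which every centre has five spokes, and their greedy drawings. -/

namespace Pool.Agent.MP_06c78e_co.H40

open Real Function

variable {X : Type}

/-- Vertices: `(a, none)` is the centre `a`, `(a, some k)` its spoke number `k`. -/
abbrev Vx (X : Type) : Type := X × Option (Fin 5)

/-- The spoke `(a, some k)` is adjacent to the centres `a` and `tg a k`. -/
def spG (tg : X → Fin 5 → X) : SimpleGraph (Vx X) :=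
  SimpleGraph.fromRel fun u v => ∃ k, u.2 = some k ∧ v.2 = none ∧ (v.1 = u.1 ∨ v.1 = tg u.1 k)

theorem spG_adj (tg : X → Fin 5 → X) (u v : Vx X) : (spG tg).Adj u v ↔
    (∃ k, u.2 = some k ∧ v.2 = none ∧ (v.1 = u.1 ∨ v.1 = tg u.1 k)) ∨
    (∃ k, v.2 = some k ∧ u.2 = none ∧ (u.1 = v.1 ∨ u.1 = tg v.1 k)) := by
  simp only [spG, SimpleGraph.fromRel_adj, and_iff_right_iff_imp]
  rintro (⟨k, h1, h2, -⟩ | ⟨k, h1, h2, -⟩) rfl <;> simp [h1] at h2

theorem spG_adj_own (tg : X → Fin 5 → X) (a : X) (k : Fin 5) :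
    (spG tg).Adj (a, some k) (a, none) := (spG_adj _ _ _).2 (Or.inl ⟨k, rfl, rfl, Or.inl rfl⟩)

theorem spG_adj_tg (tg : X → Fin 5 → X) (a : X) (k : Fin 5) :
    (spG tg).Adj (a, some k) (tg a k, none) :=
  (spG_adj _ _ _).2 (Or.inl ⟨k, rfl, rfl, Or.inr rfl⟩)

theorem spG_adj_spoke {tg : X → Fin 5 → X} {a : X} {k : Fin 5} {v : Vx X}
    (h : (spG tg).Adj (a, some k) v) : v = (a, none) ∨ v = (tg a k, none) := by
  obtain ⟨b, o⟩ := v
  rcases (spG_adj _ _ _).1 h with ⟨j, h1, h2, h3⟩ | ⟨j, h1, h2, h3⟩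
  · simp only [Option.some.injEq] at h1 h2 h3
    subst h1 h2
    rcases h3 with rfl | rfl <;> simp
  · simp at h2

/-- Greedy drawings in the complex plane. -/
def GreedyC {V : Type} (G : SimpleGraph V) (p : V → ℂ) : Prop :=
  Injective p ∧ ∀ s t : V, s ≠ t → ∃ u : V, G.Adj s u ∧ dist (p u) (p t) < dist (p s) (p t)

theorem greedy_iff {V : Type} (G : SimpleGraph V) :
    (∃ p, IsGreedyDrawing G p) ↔ ∃ p, GreedyC G p := by
  let e := Complex.orthonormalBasisOneI.repr
  constructor
  · rintro ⟨p, h1, h2⟩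
    exact ⟨fun v => e.symm (p v), e.symm.injective.comp h1, fun s t h => by
      simpa only [e.symm.dist_map] using h2 s t h⟩
  · rintro ⟨p, h1, h2⟩
    exact ⟨fun v => e (p v), e.injective.comp h1, fun s t h => by
      simpa only [e.dist_map] using h2 s t h⟩

/-- A greedy drawing, with every spoke attributed to its nearest vertex. -/
structure Drw (X : Type) where
  tg : X → Fin 5 → X
  p : Vx X → ℂ
  inj : Injective p
  ne : ∀ a k, tg a k ≠ a
  n1 : ∀ a k t, t ≠ (a, some k) → dist (p (a, some k)) (p (a, none)) ≤ dist (p (a, some k)) (p t)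
  n1s : ∀ a k m, k ≠ m →
    dist (p (a, some k)) (p (a, none)) < dist (p (a, some k)) (p (a, some m))
  n2 : ∀ a k t, t ≠ (a, some k) → dist (p t) (p (a, none)) < dist (p t) (p (a, some k)) ∨
    dist (p t) (p (tg a k, none)) < dist (p t) (p (a, some k))

namespace Drw

variable (D : Drw X)

/-- Position of a centre. -/
abbrev c (a : X) : ℂ := D.p (a, none)
/-- Position of a spoke. -/
abbrev s (a : X) (k : Fin 5) : ℂ := D.p (a, some k)
/-- Distance from the vertex `t` to the centre `a`. -/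
noncomputable abbrev d (t : Vx X) (a : X) : ℝ := dist (D.p t) (D.c a)
/-- The arc number `k` of `a` is useless for the target `t`. -/
def Ul (a : X) (k : Fin 5) (t : Vx X) : Prop := D.d t a ≤ D.d t (D.tg a k)

theorem s_ne (a : X) (k : Fin 5) : D.s a k ≠ D.c a := fun h => by simpa using D.inj h

theorem v_ne (a : X) (k : Fin 5) : D.s a k - D.c a ≠ 0 := sub_ne_zero.2 (D.s_ne a k)

theorem p_ne {t u : Vx X} (h : t.1 ≠ u.1) : D.p t ≠ D.p u := fun e => h (by rw [D.inj e])

theorem sub_ne {t u : Vx X} (h : t.1 ≠ u.1) : D.p t - D.p u ≠ 0 := sub_ne_zero.2 (D.p_ne h)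

theorem far_spokes (a : X) {k m : Fin 5} (h : k ≠ m) :
    Far (D.s a k - D.c a) (D.s a m - D.c a) := by
  by_contra hf
  have h1 := norm_sub_le_of_not_far hf
  have h2 := D.n1s a k m h
  have h3 := D.n1s a m k h.symm
  rw [dist_comm (D.p (a, some m)) (D.p (a, some k))] at h3
  rw [sub_sub_sub_cancel_right, ← dist_eq_norm, ← dist_eq_norm, ← dist_eq_norm] at h1
  rcases le_max_iff.1 h1 with h | h <;> linarith

theorem ne_of_fst {t : Vx X} {a : X} (h : t.1 ≠ a) (o : Option (Fin 5)) : t ≠ (a, o) :=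
  fun e => h (by rw [e])

/-- A target within sixty degrees of a spoke is at least as close to the spoke as to the centre. -/
theorem cone0 {a : X} {k : Fin 5} {t : Vx X} (ht : t.1 ≠ a)
    (h : ¬Far (D.s a k - D.c a) (D.p t - D.c a)) : dist (D.p t) (D.s a k) ≤ D.d t a := by
  have h1 := D.n1 a k t (ne_of_fst ht _)
  have h2 : 0 < ‖D.p t - D.c a‖ := norm_pos_iff.2 (D.sub_ne (u := (a, none)) ht)
  rw [dist_le_iff_sq, show D.s a k - D.p t = (D.s a k - D.c a) - (D.p t - D.c a) by ring,
    sq_norm_sub (D.s a k - D.c a)] at h1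
  rw [Far, not_lt] at h
  rw [dist_le_iff_sq, show D.p t - D.s a k = (D.p t - D.c a) - (D.s a k - D.c a) by ring,
    sq_norm_sub (D.p t - D.c a), ip_comm]
  have h3 : ‖D.s a k - D.c a‖ ≤ ‖D.p t - D.c a‖ := le_of_mul_le_mul_left (by nlinarith) h2
  nlinarith [norm_nonneg (D.s a k - D.c a)]

/-- If the spoke is at least as close to `t` as the centre, the arc is useful. -/
theorem useful_of_le {a : X} {k : Fin 5} {t : Vx X} (ht : t.1 ≠ a)
    (h : dist (D.p t) (D.s a k) ≤ D.d t a) : D.d t (D.tg a k) < D.d t a := by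
  rcases D.n2 a k t (ne_of_fst ht _) with h1 | h1
  · exact absurd h1 (not_lt.2 h)
  · exact h1.trans_le h

theorem cone {a : X} {k : Fin 5} {t : Vx X} (ht : t.1 ≠ a)
    (h : ¬Far (D.s a k - D.c a) (D.p t - D.c a)) : D.d t (D.tg a k) < D.d t a :=
  D.useful_of_le ht (D.cone0 ht h)

variable {D}

theorem Ul.far {a : X} {k : Fin 5} {t : Vx X} (h : D.Ul a k t) (ht : t.1 ≠ a) :
    Far (D.s a k - D.c a) (D.p t - D.c a) := by
  by_contra hf
  exact absurd (D.cone ht hf) (not_lt.2 h)

theorem Ul.lt {a : X} {k : Fin 5} {t : Vx X} (h : D.Ul a k t) (ht : t.1 ≠ a) :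
    dist (D.p t) (D.c a) < dist (D.p t) (D.s a k) := by
  by_contra hf
  exact absurd (D.useful_of_le ht (not_lt.1 hf)) (not_lt.2 h)

variable (D)

theorem cover (a : X) (z : ℂ) : ∃ k, ¬Far (D.s a k - D.c a) z :=
  H40.cover (fun _ _ h => D.far_spokes a h) z

/-- Every centre has an arc leading closer to the target. -/
theorem step {a : X} {t : Vx X} (ht : t.1 ≠ a) : ∃ k, D.d t (D.tg a k) < D.d t a :=
  (D.cover a _).imp fun _ h => D.cone ht h

/-- The element of a set nearest to a target has an arc leaving the set. -/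
theorem exit [Finite X] (A : X → Prop) {a₀ : X} (h₀ : A a₀) {t : Vx X} (ht : ¬A t.1) :
    ∃ a, A a ∧ (∀ b, A b → D.d t a ≤ D.d t b) ∧
      ∃ k, ¬A (D.tg a k) ∧ D.d t (D.tg a k) < D.d t a := by
  obtain ⟨a, ha, h⟩ := Set.exists_min_image {a | A a} (D.d t) (Set.toFinite _) ⟨a₀, h₀⟩
  obtain ⟨k, hk⟩ := D.step (a := a) (t := t) (fun e => ht (e ▸ ha))
  exact ⟨a, ha, h, k, fun h' => absurd (h _ h') (not_le.2 hk), hk⟩

/-- Two targets for which four arcs are useless are within sixty degrees. -/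
theorem pocket {a : X} {k : Fin 5} {z z' : ℂ} (h : ∀ m, m ≠ k → Far (D.s a m - D.c a) z)
    (h' : ∀ m, m ≠ k → Far (D.s a m - D.c a) z') : ¬Far z z' := by
  obtain ⟨i, j, hij, e⟩ := six (Fin.cons z (update (fun m => D.s a m - D.c a) k z'))
  induction i using Fin.cases <;> induction j using Fin.cases
  · exact absurd rfl hij
  all_goals simp only [Fin.cons_zero, Fin.cons_succ] at e
  · rename_i j
    by_cases hj : j = k
    · simpa [hj] using e
    · rw [update_of_ne hj] at e; exact absurd (h j hj).symm e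
  · rename_i j
    by_cases hj : j = k
    · subst hj; rw [update_self] at e; exact fun h => e h.symm
    · rw [update_of_ne hj] at e; exact absurd (h j hj) e
  · rename_i i j
    have hij' : i ≠ j := fun e' => hij (congrArg Fin.succ e')
    by_cases hi : i = k
    · subst hi
      rw [update_self, update_of_ne hij'.symm] at e
      exact absurd (h' j hij'.symm).symm e
    · by_cases hj : j = k
      · subst hj
        rw [update_self, update_of_ne hi] at e
        exact absurd (h' i hi) e
      · rw [update_of_ne hi, update_of_ne hj] at e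
        exact absurd (D.far_spokes a hij') e

/-- Neighbouring spokes have comparable lengths. -/
theorem len_ge {a : X} {k : Fin 5} {t : Vx X} (ht : t ≠ (a, some k)) (ht' : t ≠ (a, none))
    {x y : ℝ} (hx : Dir (D.s a k - D.c a) x) (hy : Dir (D.p t - D.c a) y) :
    2 * cos (x - y) * ‖D.s a k - D.c a‖ ≤ ‖D.p t - D.c a‖ := by
  have h1 := D.n1 a k t ht
  have h2 : 0 < ‖D.p t - D.c a‖ := norm_pos_iff.2 (sub_ne_zero.2 fun e => ht' (D.inj e))
  rw [closer_iff', hx.ip_eq hy] at h1
  exact le_of_mul_le_mul_left (by nlinarith) h2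

end Drw

open Classical in
/-- The number of arcs from `a` to `b`. -/
noncomputable def cnt (tg : X → Fin 5 → X) (a b : X) : ℕ :=
  (Finset.univ.filter fun k => tg a k = b).card

open Classical in
theorem cnt_eq (tg : X → Fin 5 → X) (a b : X) : cnt tg a b =
    (if tg a 0 = b then 1 else 0) + (if tg a 1 = b then 1 else 0) + (if tg a 2 = b then 1 else 0) +
      (if tg a 3 = b then 1 else 0) + (if tg a 4 = b then 1 else 0) := by
  rw [cnt, Finset.card_filter, Fin.sum_univ_five]

theorem cnt_pos {tg : X → Fin 5 → X} {a b : X} : 0 < cnt tg a b ↔ ∃ k, tg a k = b := by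
  simp [cnt, Finset.card_pos, Finset.Nonempty]

theorem cnt_le (tg : X → Fin 5 → X) (a b : X) : cnt tg a b ≤ 5 := by
  exact (Finset.card_le_univ _).trans_eq (Fintype.card_fin 5)

theorem cnt_five {tg : X → Fin 5 → X} {a b : X} (h : 5 ≤ cnt tg a b) (k : Fin 5) : tg a k = b := by
  classical
  have := Finset.eq_univ_of_card _ (le_antisymm (Finset.card_le_univ _)
    ((Fintype.card_fin 5).trans_le h))
  simpa using Finset.eq_univ_iff_forall.1 this k

theorem cnt_add_le (tg : X → Fin 5 → X) (a : X) {b c : X} (h : b ≠ c) :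
    cnt tg a b + cnt tg a c ≤ 5 := by
  classical
  rw [cnt, cnt, ← Finset.card_union_of_disjoint (by
    simp only [Finset.disjoint_filter]; exact fun k _ e e' => h (e.symm.trans e'))]
  exact (Finset.card_le_univ _).trans_eq (Fintype.card_fin 5)

/-- If the arcs to `b` and to `c` are five in total, there is no other arc. -/
theorem cnt_two {tg : X → Fin 5 → X} {a b c : X} (h : b ≠ c) (h5 : 5 ≤ cnt tg a b + cnt tg a c)
    (k : Fin 5) : tg a k = b ∨ tg a k = c := by
  classical
  rw [cnt, cnt, ← Finset.card_union_of_disjoint (by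
    simp only [Finset.disjoint_filter]; exact fun k _ e e' => h (e.symm.trans e'))] at h5
  have := Finset.eq_univ_of_card _ (le_antisymm (Finset.card_le_univ _)
    ((Fintype.card_fin 5).trans_le h5))
  simpa using Finset.eq_univ_iff_forall.1 this k

theorem cnt_sum2 {tg : X → Fin 5 → X} {a b c : X} (h : ∀ k, tg a k = b ∨ tg a k = c) :
    5 ≤ cnt tg a b + cnt tg a c := by
  classical
  rw [cnt, cnt]
  refine le_trans ?_ (Finset.card_union_le _ _)
  exact (Finset.card_le_card (s := Finset.univ) fun k _ => by simpa using h k).trans' (by simp)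

theorem cnt_sum3 {tg : X → Fin 5 → X} {a b c d : X}
    (h : ∀ k, tg a k = b ∨ tg a k = c ∨ tg a k = d) :
    5 ≤ cnt tg a b + cnt tg a c + cnt tg a d := by
  classical
  rw [cnt, cnt, cnt]
  refine le_trans ?_ (le_trans (Finset.card_union_le _ _)
    (Nat.add_le_add_right (Finset.card_union_le _ _) _))
  exact (Finset.card_le_card (s := Finset.univ) fun k _ => by simpa [or_assoc] using h k).trans'
    (by simp)

/-- Four arcs to `b`: all arcs but one go to `b`. -/
theorem cnt_four {tg : X → Fin 5 → X} {a b : X} (h : 4 ≤ cnt tg a b) :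
    ∃ k, ∀ m, m ≠ k → tg a m = b := by
  classical
  have h1 := Finset.card_filter_add_card_filter_not (s := Finset.univ) (fun k => tg a k = b)
  rw [cnt] at h
  obtain ⟨k, hk⟩ := Finset.card_le_one_iff_subset_singleton.1
    (show (Finset.univ.filter fun k => ¬tg a k = b).card ≤ 1 by simp at h1 ⊢; omega)
  refine ⟨k, fun m hm => ?_⟩
  by_contra h'
  exact hm (by simpa using hk (show m ∈ _ by simpa using h'))

/-- Two orientations of the same multigraph. -/
def Compat (tg tg₀ : X → Fin 5 → X) : Prop :=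
  ∃ Φ : X × Fin 5 ≃ X × Fin 5, ∀ q, s(q.1, tg q.1 q.2) = s((Φ q).1, tg₀ (Φ q).1 (Φ q).2)

theorem Compat.nbr {tg tg₀ : X → Fin 5 → X} (h : Compat tg tg₀) (a : X) (k : Fin 5) :
    ∃ m, tg₀ a m = tg a k ∨ tg₀ (tg a k) m = a := by
  obtain ⟨Φ, h⟩ := h
  refine ⟨(Φ (a, k)).2, ?_⟩
  rcases Sym2.eq_iff.1 (h (a, k)) with ⟨h1, h2⟩ | ⟨h1, h2⟩
  · left; simp only at h1 h2; rw [h2, ← h1]
  · right; simp only at h1 h2; rw [h2, ← h1]

theorem Compat.card {tg tg₀ : X → Fin 5 → X} [Fintype X] (h : Compat tg tg₀)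
    (P : X → X → Prop) (hP : ∀ a b, P a b → P b a) [∀ a b, Decidable (P a b)] :
    (Finset.univ.filter fun q : X × Fin 5 => P q.1 (tg q.1 q.2)).card =
      (Finset.univ.filter fun q : X × Fin 5 => P q.1 (tg₀ q.1 q.2)).card := by
  obtain ⟨Φ, h⟩ := h
  refine Finset.card_equiv Φ fun q => ?_
  simp only [Finset.mem_filter, Finset.mem_univ, true_and]
  rcases Sym2.eq_iff.1 (h q) with ⟨h1, h2⟩ | ⟨h1, h2⟩
  · rw [← h2, ← h1]
  · rw [← h1, ← h2]; exact ⟨hP _ _, hP _ _⟩

theorem card_eq_sum [Fintype X] (P : X × Fin 5 → Prop) [DecidablePred P] :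
    (Finset.univ.filter P).card = ∑ a, (Finset.univ.filter fun k => P (a, k)).card := by
  simp only [Finset.card_filter]
  rw [Fintype.sum_prod_type]

theorem Compat.cnt {tg tg₀ : X → Fin 5 → X} [Finite X] (h : Compat tg tg₀) {a b : X}
    (hab : a ≠ b) : cnt tg a b + cnt tg b a = cnt tg₀ a b + cnt tg₀ b a := by
  classical
  have := Fintype.ofFinite X
  have key : ∀ t : X → Fin 5 → X, (Finset.univ.filter fun q : X × Fin 5 =>
      (q.1 = a ∧ t q.1 q.2 = b) ∨ (q.1 = b ∧ t q.1 q.2 = a)).card = H40.cnt t a b + H40.cnt t b a := by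
    intro t
    rw [card_eq_sum, ← Finset.sum_subset (Finset.subset_univ {a, b}) (fun x _ hx => by
      simp only [Finset.mem_insert, Finset.mem_singleton, not_or] at hx
      simp [hx.1, hx.2]), Finset.sum_pair hab]
    simp [H40.cnt, hab, hab.symm]
  rw [← key, ← key]
  exact h.card (fun x y => (x = a ∧ y = b) ∨ (x = b ∧ y = a)) (fun _ _ => by tauto)

/-- The number of arcs leaving a set does not depend on the orientation. -/
theorem Compat.exits {tg tg₀ : X → Fin 5 → X} [Fintype X] (h : Compat tg tg₀) (A : X → Prop)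
    [DecidablePred A] : (Finset.univ.filter fun q : X × Fin 5 => A q.1 ∧ ¬A (tg q.1 q.2)).card =
      (Finset.univ.filter fun q : X × Fin 5 => A q.1 ∧ ¬A (tg₀ q.1 q.2)).card := by
  have key : ∀ t : X → Fin 5 → X,
      (Finset.univ.filter fun q : X × Fin 5 => A q.1 ∧ A (t q.1 q.2)).card +
      (Finset.univ.filter fun q : X × Fin 5 => A q.1 ∧ ¬A (t q.1 q.2)).card =
      (Finset.univ.filter fun q : X × Fin 5 => A q.1).card := by
    intro t
    rw [← Finset.filter_filter, ← Finset.filter_filter, Finset.card_filter_add_card_filter_not]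
  have h1 := h.card (fun x y => A x ∧ A y) (fun _ _ => And.symm)
  have h2 := key tg
  have h3 := key tg₀
  omega

/-- A greedy drawing attributes exactly five spokes to every centre. -/
theorem exists_drw [Finite X] {tg₀ : X → Fin 5 → X} (hne : ∀ a k, tg₀ a k ≠ a) {p : Vx X → ℂ}
    (h : GreedyC (spG tg₀) p) : ∃ D : Drw X, Compat D.tg tg₀ := by
  classical
  have := Fintype.ofFinite X
  let sp : X × Fin 5 → Vx X := fun q => (q.1, some q.2)
  have hsp : Injective sp := fun q q' e => by
    simp only [sp, Prod.mk.injEq, Option.some.injEq] at e; exact Prod.ext e.1 e.2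
  have ex : ∀ q : X × Fin 5, ∃ a b : X, s(a, b) = s(q.1, tg₀ q.1 q.2) ∧
      dist (p (sp q)) (p (a, none)) ≤ dist (p (sp q)) (p (b, none)) := fun q => by
    rcases le_total (dist (p (sp q)) (p (q.1, none))) (dist (p (sp q)) (p (tg₀ q.1 q.2, none)))
      with h | h
    · exact ⟨_, _, rfl, h⟩
    · exact ⟨_, _, Sym2.eq_swap, h⟩
  choose own oth h1 h2 using ex
  have adj : ∀ q u, (spG tg₀).Adj (sp q) u → u = (own q, none) ∨ u = (oth q, none) := by
    intro q u hu
    rcases spG_adj_spoke hu with rfl | rfl <;> rcases Sym2.eq_iff.1 (h1 q) with e | e <;>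
      simp [e.1, e.2]
  have near : ∀ q t, t ≠ sp q → dist (p (sp q)) (p (own q, none)) ≤ dist (p (sp q)) (p t) := by
    intro q t ht
    obtain ⟨s, hs, hmin⟩ := Set.exists_min_image {s | s ≠ sp q} (fun s => dist (p (sp q)) (p s))
      (Set.toFinite _) ⟨t, ht⟩
    obtain ⟨u, hu, hlt⟩ := h.2 s (sp q) hs
    have hu' : u = sp q := by
      by_contra hu'
      have := hmin u hu'
      rw [dist_comm (p u), dist_comm (p s)] at hlt
      linarith
    subst hu'
    have := hmin t ht
    rcases adj q s hu.symm with rfl | rfl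
    · exact this
    · exact (h2 q).trans this
  have nears : ∀ q q', q' ≠ q →
      dist (p (sp q)) (p (own q, none)) < dist (p (sp q)) (p (sp q')) := by
    intro q q' hq
    obtain ⟨u, hu, hlt⟩ := h.2 (sp q') (sp q) (hsp.ne hq)
    have : u ≠ sp q := by
      rcases adj q' u hu with rfl | rfl <;> simp [sp]
    rw [dist_comm (p u), dist_comm (p (sp q'))] at hlt
    exact (near q u this).trans_lt hlt
  have le5 : ∀ a, (Finset.univ.filter fun q => own q = a).card ≤ 5 := by
    intro a
    by_contra hc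
    obtain ⟨S, hS, hS6⟩ := Finset.exists_subset_card_eq (n := 6) (Nat.succ_le_of_lt (not_le.1 hc))
    let e := (S.equivFinOfCardEq hS6).symm
    obtain ⟨i, j, hij, hf⟩ := six (fun i => p (sp (e i)) - p (a, none))
    have hne' : (e i).1 ≠ (e j).1 := fun h => hij (e.injective (Subtype.ext h))
    have a1 := nears _ _ hne'
    have a2 := nears _ _ hne'.symm
    have b1 : own (e i) = a := by simpa using hS (e i).2
    have b2 : own (e j) = a := by simpa using hS (e j).2
    have a3 := norm_sub_le_of_not_far hf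
    rw [sub_sub_sub_cancel_right, ← dist_eq_norm, ← dist_eq_norm, ← dist_eq_norm] at a3
    rw [b2, dist_comm (p (sp (e j))) (p (sp (e i)))] at a1
    rw [b1] at a2
    rcases le_max_iff.1 a3 with h | h <;> linarith
  have eq5 : ∀ a, (Finset.univ.filter fun q => own q = a).card = 5 := by
    have a1 := Finset.card_eq_sum_card_fiberwise (s := Finset.univ) (t := Finset.univ) (f := own)
      (fun _ _ => Finset.mem_coe.2 (Finset.mem_univ _))
    have a2 := (Finset.sum_eq_sum_iff_of_le (s := Finset.univ) (g := fun _ => 5)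
      (fun a _ => le5 a)).1 (by rw [← a1]; simp)
    exact fun a => a2 a (Finset.mem_univ _)
  let f : ∀ a, Fin 5 ≃ {q // own q = a} := fun a =>
    (Fintype.equivFinOfCardEq (by rw [Fintype.card_subtype, eq5])).symm
  let Φ : X × Fin 5 ≃ X × Fin 5 := (Equiv.sigmaEquivProd X (Fin 5)).symm.trans
    ((Equiv.sigmaCongrRight f).trans (Equiv.sigmaFiberEquiv own))
  have hΦ : ∀ a k, own (Φ (a, k)) = a := fun a k => (f a k).2
  let Ψ : Vx X → Vx X := fun t => t.2.elim t fun k => sp (Φ (t.1, k))
  have hΨ : Injective Ψ := by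
    rintro ⟨a, _ | k⟩ ⟨b, _ | m⟩ e
    · exact e
    · simp [Ψ, sp] at e
    · simp [Ψ, sp] at e
    · have := Φ.injective (hsp e)
      simp only [Prod.mk.injEq] at this
      rw [this.1, this.2]
  have hc : ∀ a k, s(a, oth (Φ (a, k))) = s((Φ (a, k)).1, tg₀ (Φ (a, k)).1 (Φ (a, k)).2) :=
    fun a k => by rw [← h1, hΦ]
  refine ⟨⟨fun a k => oth (Φ (a, k)), p ∘ Ψ, h.1.comp hΨ, fun a k e => ?_, fun a k t ht => ?_,
    fun a k m hm => ?_, fun a k t ht => ?_⟩, Φ, fun q => hc q.1 q.2⟩
  · have := hc a k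
    rw [e] at this
    rcases Sym2.eq_iff.1 this with e | e
    · exact hne _ _ (e.2.symm.trans e.1)
    · exact hne _ _ (e.1.symm.trans e.2)
  · have := near (Φ (a, k)) (Ψ t) (hΨ.ne ht)
    rwa [hΦ] at this
  · have := nears (Φ (a, k)) (Φ (a, m)) (Φ.injective.ne (by simpa using hm.symm))
    rwa [hΦ] at this
  · obtain ⟨u, hu, hlt⟩ := h.2 (sp (Φ (a, k))) (Ψ t) (hΨ.ne ht).symm
    rw [dist_comm (p u), dist_comm _ (p (Ψ t))] at hlt
    rcases adj _ u hu with rfl | rfl
    · left; rwa [hΦ] at hlt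
    · right; exact hlt

/-- The converse: the two conditions on the spokes give a greedy drawing. -/
theorem greedy_of {tg : X → Fin 5 → X} {p : Vx X → ℂ} (inj : Injective p)
    (n1 : ∀ a k t, t ≠ (a, some k) → t ≠ (a, none) →
      dist (p (a, some k)) (p (a, none)) < dist (p (a, some k)) (p t))
    (n2 : ∀ a k t, t ≠ (a, some k) → dist (p t) (p (a, none)) < dist (p t) (p (a, some k)) ∨
      dist (p t) (p (tg a k, none)) < dist (p t) (p (a, some k))) : GreedyC (spG tg) p := by
  refine ⟨inj, ?_⟩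
  rintro ⟨a, _ | k⟩ t hst
  · have far : ∀ k m, k ≠ m → Far (p (a, some k) - p (a, none)) (p (a, some m) - p (a, none)) := by
      intro k m h
      by_contra hf
      have h1 := norm_sub_le_of_not_far hf
      have h2 := n1 a k (a, some m) (by simpa using h.symm) (by simp)
      have h3 := n1 a m (a, some k) (by simpa using h) (by simp)
      rw [dist_comm (p (a, some m)) (p (a, some k))] at h3
      rw [sub_sub_sub_cancel_right, ← dist_eq_norm, ← dist_eq_norm, ← dist_eq_norm] at h1
      rcases le_max_iff.1 h1 with h | h <;> linarith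
    obtain ⟨k, h⟩ := cover far (p t - p (a, none))
    refine ⟨(a, some k), (spG_adj_own tg a k).symm, ?_⟩
    have h2 : 0 < ‖p t - p (a, none)‖ := norm_pos_iff.2 (sub_ne_zero.2 (inj.ne hst.symm))
    by_cases ht : t = (a, some k)
    · rw [ht, dist_self]; exact dist_pos.2 (inj.ne (by simp))
    have h1 := n1 a k t ht hst.symm
    rw [closer_iff] at h1
    rw [Far, not_lt] at h
    rw [dist_comm (p (a, some k)), dist_comm (p (a, none)), dist_lt_iff_sq,
      show p t - p (a, some k) = (p t - p (a, none)) - (p (a, some k) - p (a, none)) by ring,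
      sq_norm_sub (p t - p (a, none)), ip_comm]
    have h3 : ‖p (a, some k) - p (a, none)‖ < ‖p t - p (a, none)‖ :=
      lt_of_mul_lt_mul_right (by nlinarith) h2.le
    have h4 : 0 < ‖p (a, some k) - p (a, none)‖ :=
      norm_pos_iff.2 (sub_ne_zero.2 (inj.ne (by simp)))
    nlinarith
  · rcases n2 a k t hst.symm with h | h
    · exact ⟨_, spG_adj_own tg a k, by rwa [dist_comm, dist_comm _ (p t)]⟩
    · exact ⟨_, spG_adj_tg tg a k, by rwa [dist_comm, dist_comm _ (p t)]⟩

end Pool.Agent.MP_06c78e_co.H40
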