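import Pool.Agent.MP_06c78e_co.Defs

namespace Pool.Agent.MP_06c78e_co.H40

/-- A planar graph: the vertices are distinct points of the plane, every edge is an arc (an
injective path) between its ends which contains no other vertex, and two different edges have
no common point except vertices. -/
def IsPlanar {V : Type} (G : SimpleGraph V) : Prop :=
  ∃ (p : V → Plane) (γ : ∀ u v, G.Adj u v → Path (p u) (p v)),
    Function.Injective p ∧
    (∀ u v h, Function.Injective (γ u v h)) ∧
    (∀ u v (h : G.Adj u v), γ v u h.symm = (γ u v h).symm) ∧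
    (∀ u v h w, p w ∈ Set.range (γ u v h) → w = u ∨ w = v) ∧
    ∀ u v h u' v' h', s(u, v) ≠ s(u', v') →
      ∀ x ∈ Set.range (γ u v h), x ∈ Set.range (γ u' v' h') → ∃ w, x = p w

end Pool.Agent.MP_06c78e_co.H40
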