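import Pool.Agent.MP_06c78e_co.H40.Drw

/-! Greedy drawings in the shape of a comb. -/

namespace Pool.Agent.MP_06c78e_co.H40

variable {X : Type}

/-- `b` lies between `a` (excluded) and `c` (included). -/
def Btw (x : X → ℝ) (a b c : X) : Prop := (x a < x b ∧ x b ≤ x c) ∨ (x c ≤ x b ∧ x b < x a)

/-- Metric data for a drawing with the centres on the real axis. The spoke `π a 0` points to the
right, `π a 1`, `π a 2` point backwards, `π a 3`, `π a 4` up and down. -/
structure Comb (tg : X → Fin 5 → X) where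
  x : X → ℝ
  R : X → ℝ
  s : X → ℝ
  π : X → Equiv.Perm (Fin 5)
  Rpos : ∀ a, 0 < R a
  spos : ∀ a, 0 < s a
  sle : ∀ a, s a ≤ 1 / 100
  sep : ∀ a c, a ≠ c → 100 * R a ≤ |x a - x c|
  fw : ∀ a c, x a < x c → Btw x a (tg a (π a 0)) c ∨ 2 * |x c - x (tg a (π a 0))| ≤ |x c - x a|
  bk : ∀ a c j, j = 1 ∨ j = 2 → x c < x a →
    Btw x a (tg a (π a j)) c ∨ 2 * |x c - x (tg a (π a j))| ≤ |x c - x a|
  fr : ∀ a c j, j = 3 ∨ j = 4 → x a < x c →
    Btw x a (tg a (π a j)) c ∨ (8 * R c ≤ R a ∧ 8 * s a * (x c - x a) ≤ R a)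
  fl : ∀ a c j, j = 3 ∨ j = 4 → x c < x a →
    Btw x a (tg a (π a j)) c ∨ 4 * R c ≤ s a * (x a - x c)

/-- First coordinates of the five directions. -/
noncomputable def vx (s : ℝ) : Fin 5 → ℝ := ![1, -(√3 / 2), -(√3 / 2), s, s]

/-- Second coordinates of the five directions. -/
noncomputable def vy (s : ℝ) : Fin 5 → ℝ := ![0, (1 + s) / 2, -((1 + s) / 2), 1, -1]

theorem sqrt3_sq : (√3 / 2 : ℝ) ^ 2 = 3 / 4 := by
  rw [div_pow, Real.sq_sqrt (by norm_num)]; norm_num

theorem sqrt3_gt : (0.86 : ℝ) < √3 / 2 := by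
  have : (1.72 : ℝ) < √3 := Real.lt_sqrt_of_sq_lt (by norm_num)
  linarith

theorem sqrt3_lt : (√3 / 2 : ℝ) < 0.87 := by
  have : √3 < (1.74 : ℝ) := (Real.sqrt_lt' (by norm_num)).2 (by norm_num)
  linarith

theorem vec_bd {s : ℝ} (h0 : 0 < s) (h1 : s ≤ 1 / 100) (j : Fin 5) :
    -1 ≤ vx s j ∧ vx s j ≤ 1 ∧ -1 ≤ vy s j ∧ vy s j ≤ 1 ∧ 1 ≤ vx s j ^ 2 + vy s j ^ 2 := by
  have a1 := sqrt3_sq
  have a2 := sqrt3_gt
  have a3 := sqrt3_lt
  fin_cases j <;> simp only [vx, vy] <;> generalize (√3 / 2 : ℝ) = h at * <;> simp <;>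
    refine ⟨?_, ?_, ?_⟩ <;> (try refine ⟨?_, ?_⟩) <;> (try refine ⟨?_, ?_⟩) <;> nlinarith

theorem vec_far {s : ℝ} (h0 : 0 < s) (h1 : s ≤ 1 / 100) {j m : Fin 5} (h : j ≠ m) :
    vx s j ^ 2 + vy s j ^ 2 < (vx s j - vx s m) ^ 2 + (vy s j - vy s m) ^ 2 := by
  have a1 := sqrt3_sq
  have a2 := sqrt3_gt
  have a3 := sqrt3_lt
  have a4 := mul_pos h0 h0
  have a5 : s * 0.86 < s * (√3 / 2) := mul_lt_mul_of_pos_left a2 h0
  have a6 : s * s ≤ s * (1 / 100) := mul_le_mul_of_nonneg_left h1 h0.le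
  fin_cases j <;> fin_cases m <;> first
    | exact absurd rfl h
    | (simp only [vx, vy]; generalize (√3 / 2 : ℝ) = h at *; simp; nlinarith)

/-- The target between the owner of the spoke and the owner of the point, from left to right. -/
theorem btw_ineq {xa xb xc Ra Rc u1 u2 v1 v2 : ℝ} (ha : 0 < Ra) (hc : 0 < Rc)
    (h1 : 100 * Ra ≤ xb - xa) (h2 : xb ≤ xc) (h3 : 100 * Rc ≤ xc - xa)
    (u1l : -1 ≤ u1) (u2l : -1 ≤ u2) (u2r : u2 ≤ 1)
    (v1r : v1 ≤ 1) (v2l : -1 ≤ v2) (v2r : v2 ≤ 1) :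
    (xc + Rc * u1 - xb) ^ 2 + (Rc * u2) ^ 2 <
      (xc + Rc * u1 - (xa + Ra * v1)) ^ 2 + (Rc * u2 - Ra * v2) ^ 2 := by
  have e1 : 99 * Ra ≤ xb - (xa + Ra * v1) := by nlinarith
  have e2 : 97 * Rc ≤ 2 * (xc + Rc * u1) - xb - (xa + Ra * v1) := by nlinarith
  have e3 : (99 * Ra) * (97 * Rc) ≤
      (xb - (xa + Ra * v1)) * (2 * (xc + Rc * u1) - xb - (xa + Ra * v1)) :=
    mul_le_mul e1 e2 (by positivity) (by linarith)
  have e4 : u2 * v2 ≤ 1 := by nlinarith
  have e5 : 0 < Ra * Rc := mul_pos ha hc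
  have e6 : Ra * Rc * (u2 * v2) ≤ Ra * Rc * 1 := mul_le_mul_of_nonneg_left e4 e5.le
  nlinarith [sq_nonneg (Ra * v2)]

/-- Points with different owners are far apart. -/
theorem far_ineq {D Ra Rc u1 v1 : ℝ} (ha : 0 < Ra) (hc : 0 < Rc)
    (h1 : 100 * Ra ≤ |D|) (h3 : 100 * Rc ≤ |D|)
    (u1l : -1 ≤ u1) (u1r : u1 ≤ 1) (v1l : -1 ≤ v1) (v1r : v1 ≤ 1) :
    (0.98 * |D|) ^ 2 ≤ (D + Rc * u1 - Ra * v1) ^ 2 := by
  have e1 : Rc * u1 ≤ Rc := by nlinarith
  have e2 : -Rc ≤ Rc * u1 := by nlinarith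
  have e3 : Ra * v1 ≤ Ra := by nlinarith
  have e4 : -Ra ≤ Ra * v1 := by nlinarith
  rw [← sq_abs (D + Rc * u1 - Ra * v1)]
  refine pow_le_pow_left₀ (by positivity) ?_ 2
  rcases abs_cases D with ⟨e, _⟩ | ⟨e, _⟩
  · exact le_abs.2 (Or.inl (by linarith))
  · exact le_abs.2 (Or.inr (by linarith))

theorem half_ineq {D E Rc u1 u2 : ℝ} (hc : 0 < Rc) (h3 : 100 * Rc ≤ |D|) (hE : 2 * |E| ≤ |D|)
    (u1l : -1 ≤ u1) (u1r : u1 ≤ 1) (u2l : -1 ≤ u2) (u2r : u2 ≤ 1) :
    (E + Rc * u1) ^ 2 + (Rc * u2) ^ 2 < (0.98 * |D|) ^ 2 := by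
  have e1 : Rc * u1 ≤ Rc := by nlinarith
  have e2 : -Rc ≤ Rc * u1 := by nlinarith
  have e3 : Rc * u2 ≤ Rc := by nlinarith
  have e4 : -Rc ≤ Rc * u2 := by nlinarith
  have e5 := le_abs_self E
  have e6 := neg_abs_le E
  have f1 : (E + Rc * u1) ^ 2 ≤ (0.51 * |D|) ^ 2 := sq_le_sq' (by linarith) (by linarith)
  have f2 : (Rc * u2) ^ 2 ≤ (0.01 * |D|) ^ 2 := sq_le_sq' (by linarith) (by linarith)
  have f3 : 0 < |D| := by linarith
  nlinarith [mul_pos f3 f3]

theorem own_ineq {D Ra t1 t2 v1 v2 : ℝ} (ha : 0 < Ra) (hv : 1 ≤ v1 ^ 2 + v2 ^ 2)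
    (h : 2 * ((D + t1) * v1 + t2 * v2) < Ra) :
    (D + t1) ^ 2 + t2 ^ 2 < (D + t1 - Ra * v1) ^ 2 + (t2 - Ra * v2) ^ 2 := by
  have e1 := mul_lt_mul_of_pos_left h ha
  have e2 := mul_le_mul_of_nonneg_left hv (mul_pos ha ha).le
  nlinarith

namespace Comb

variable {tg : X → Fin 5 → X} (C : Comb tg)

/-- First coordinate of the direction of a vertex. -/
noncomputable def ux (t : Vx X) : ℝ := t.2.elim 0 fun k => vx (C.s t.1) ((C.π t.1).symm k)

/-- Second coordinate of the direction of a vertex. -/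
noncomputable def uy (t : Vx X) : ℝ := t.2.elim 0 fun k => vy (C.s t.1) ((C.π t.1).symm k)

/-- Position of a vertex. -/
noncomputable def pos (t : Vx X) : ℂ := ⟨C.x t.1 + C.R t.1 * C.ux t, C.R t.1 * C.uy t⟩

theorem u_bd (t : Vx X) : -1 ≤ C.ux t ∧ C.ux t ≤ 1 ∧ -1 ≤ C.uy t ∧ C.uy t ≤ 1 := by
  obtain ⟨a, _ | k⟩ := t
  · simp [ux, uy]
  · obtain ⟨h1, h2, h3, h4, -⟩ := vec_bd (C.spos a) (C.sle a) ((C.π a).symm k)
    exact ⟨h1, h2, h3, h4⟩

theorem lt_iff (a b c d : Vx X) : dist (C.pos a) (C.pos b) < dist (C.pos c) (C.pos d) ↔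
    (C.x a.1 + C.R a.1 * C.ux a - (C.x b.1 + C.R b.1 * C.ux b)) ^ 2 +
      (C.R a.1 * C.uy a - C.R b.1 * C.uy b) ^ 2 <
    (C.x c.1 + C.R c.1 * C.ux c - (C.x d.1 + C.R d.1 * C.ux d)) ^ 2 +
      (C.R c.1 * C.uy c - C.R d.1 * C.uy d) ^ 2 := by
  rw [dist_lt_iff_sq, sq_norm, sq_norm]
  rfl

theorem far {t w : Vx X} (h : t.1 ≠ w.1) : (0.98 * |C.x t.1 - C.x w.1|) ^ 2 ≤
    (C.x t.1 + C.R t.1 * C.ux t - (C.x w.1 + C.R w.1 * C.ux w)) ^ 2 := by
  obtain ⟨a1, a2, -, -⟩ := C.u_bd t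
  obtain ⟨b1, b2, -, -⟩ := C.u_bd w
  have h1 := C.sep _ _ h.symm
  rw [abs_sub_comm] at h1
  have := far_ineq (C.Rpos w.1) (C.Rpos t.1) h1 (C.sep _ _ h) a1 a2 b1 b2
  convert this using 2
  ring

theorem n1 (a : X) (k : Fin 5) (t : Vx X) (h1 : t ≠ (a, some k)) (h2 : t ≠ (a, none)) :
    dist (C.pos (a, some k)) (C.pos (a, none)) < dist (C.pos (a, some k)) (C.pos t) := by
  rw [lt_iff]
  have hR := C.Rpos a
  by_cases hc : t.1 = a
  · obtain ⟨c, _ | m⟩ := t
    · exact absurd (by rw [← hc]) h2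
    · dsimp only at hc
      subst hc
      have hne : (C.π c).symm k ≠ (C.π c).symm m := fun e => h1 (by rw [(C.π c).symm.injective e])
      have := mul_lt_mul_of_pos_left (vec_far (C.spos c) (C.sle c) hne) (mul_pos hR hR)
      simp only [ux, uy, Option.elim]
      nlinarith
  · have f := C.far (t := (a, some k)) (w := t) (Ne.symm hc)
    have s1 := C.sep a t.1 (Ne.symm hc)
    obtain ⟨b1, b2, b3, b4⟩ := C.u_bd (a, some k)
    have f1 := half_ineq (E := 0) hR s1 (by simp) b1 b2 b3 b4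
    have e0 : C.ux (a, none) = 0 := rfl
    have e1 : C.uy (a, none) = 0 := rfl
    dsimp only at f ⊢
    rw [e0, e1]
    nlinarith [sq_nonneg (C.R a * C.uy (a, some k) - C.R t.1 * C.uy t)]

theorem own_lt (a : X) (k : Fin 5) :
    dist (C.pos (a, none)) (C.pos (a, none)) < dist (C.pos (a, none)) (C.pos (a, some k)) := by
  rw [lt_iff]
  have hR := C.Rpos a
  obtain ⟨-, -, -, -, h⟩ := vec_bd (C.spos a) (C.sle a) ((C.π a).symm k)
  have := mul_le_mul_of_nonneg_left h (mul_pos hR hR).le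
  simp only [ux, uy, Option.elim]
  nlinarith [mul_pos hR hR]

theorem inj : Function.Injective C.pos := by
  have key : ∀ a k t, t ≠ (a, some k) → C.pos (a, some k) ≠ C.pos t := by
    intro a k t ht e
    by_cases h2 : t = (a, none)
    · have := C.own_lt a k
      rw [e, h2] at this
      exact lt_irrefl _ this
    · have := C.n1 a k t ht h2
      rw [← e, dist_self] at this
      exact absurd this (not_lt.2 dist_nonneg)
  rintro ⟨a, _ | k⟩ ⟨c, _ | m⟩ e
  · by_contra hne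
    have hac : a ≠ c := fun h => hne (by rw [h])
    have h1 := C.sep a c hac
    have h2 : C.x a = C.x c := by simpa [pos, ux] using congrArg Complex.re e
    rw [h2, sub_self, abs_zero] at h1
    linarith [C.Rpos a]
  · by_contra hne
    exact key c m _ hne e.symm
  · by_contra hne
    exact key a k _ (Ne.symm hne) e
  · by_contra hne
    exact key a k _ (Ne.symm hne) e

theorem of_btw {a b : X} {t : Vx X} (k : Fin 5) (h : Btw C.x a b t.1) :
    dist (C.pos t) (C.pos (b, none)) < dist (C.pos t) (C.pos (a, some k)) := by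
  rw [lt_iff]
  obtain ⟨a1, a2, a3, a4⟩ := C.u_bd t
  obtain ⟨b1, b2, b3, b4⟩ := C.u_bd (a, some k)
  have e0 : C.ux (b, none) = 0 := rfl
  have e1 : C.uy (b, none) = 0 := rfl
  dsimp only
  rw [e0, e1]
  rcases h with ⟨h1, h2⟩ | ⟨h1, h2⟩
  · have s1 := C.sep a b (fun e => by rw [e] at h1; exact lt_irrefl _ h1)
    have s2 := C.sep t.1 a (fun e => by rw [e] at h2; linarith)
    rw [abs_of_neg (by linarith)] at s1
    rw [abs_of_pos (by linarith)] at s2
    have := btw_ineq (xb := C.x b) (C.Rpos a) (C.Rpos t.1) (by linarith) h2 s2 a1 a3 a4 b2 b3 b4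
    linarith
  · have s1 := C.sep a b (fun e => by rw [e] at h2; exact lt_irrefl _ h2)
    have s2 := C.sep t.1 a (fun e => by rw [e] at h1; linarith)
    rw [abs_of_pos (by linarith)] at s1
    rw [abs_of_neg (by linarith)] at s2
    have := btw_ineq (xa := -C.x a) (xb := -C.x b) (xc := -C.x t.1) (u1 := -C.ux t)
      (v1 := -C.ux (a, some k)) (C.Rpos a) (C.Rpos t.1) (by linarith) (by linarith) (by linarith)
      (by linarith) a3 a4 (by linarith) b3 b4
    linarith

theorem of_half {a b : X} {t : Vx X} (k : Fin 5) (hc : t.1 ≠ a)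
    (h : 2 * |C.x t.1 - C.x b| ≤ |C.x t.1 - C.x a|) :
    dist (C.pos t) (C.pos (b, none)) < dist (C.pos t) (C.pos (a, some k)) := by
  rw [lt_iff]
  obtain ⟨a1, a2, a3, a4⟩ := C.u_bd t
  have e0 : C.ux (b, none) = 0 := rfl
  have e1 : C.uy (b, none) = 0 := rfl
  have f := C.far (t := t) (w := (a, some k)) hc
  have f1 := half_ineq (C.Rpos t.1) (C.sep _ _ hc) h a1 a2 a3 a4
  dsimp only at f ⊢
  rw [e0, e1]
  nlinarith [sq_nonneg (C.R t.1 * C.uy t - C.R a * C.uy (a, some k))]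

theorem of_own {a : X} {t : Vx X} (j : Fin 5)
    (h : 2 * ((C.x t.1 - C.x a + C.R t.1 * C.ux t) * vx (C.s a) j +
      C.R t.1 * C.uy t * vy (C.s a) j) < C.R a) :
    dist (C.pos t) (C.pos (a, none)) < dist (C.pos t) (C.pos (a, some (C.π a j))) := by
  rw [lt_iff]
  obtain ⟨-, -, -, -, hv⟩ := vec_bd (C.spos a) (C.sle a) j
  have := own_ineq (C.Rpos a) hv h
  have e0 : C.ux (a, none) = 0 := rfl
  have e1 : C.uy (a, none) = 0 := rfl
  have e2 : C.ux (a, some (C.π a j)) = vx (C.s a) j := by simp [ux]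
  have e3 : C.uy (a, some (C.π a j)) = vy (C.s a) j := by simp [uy]
  dsimp only
  rw [e0, e1, e2, e3]
  linarith

theorem n2 (a : X) (k : Fin 5) (t : Vx X) (h1 : t ≠ (a, some k)) :
    dist (C.pos t) (C.pos (a, none)) < dist (C.pos t) (C.pos (a, some k)) ∨
      dist (C.pos t) (C.pos (tg a k, none)) < dist (C.pos t) (C.pos (a, some k)) := by
  by_cases hc : t.1 = a
  · left
    obtain ⟨c, _ | m⟩ := t <;> dsimp only at hc <;> subst hc
    · exact C.own_lt c k
    · exact C.n1 c m _ h1.symm (by simp)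
  obtain ⟨j, rfl⟩ := (C.π a).surjective k
  obtain ⟨a1, a2, a3, a4⟩ := C.u_bd t
  have hRa := C.Rpos a
  have hRc := C.Rpos t.1
  have s0 := C.spos a
  have s1 := C.sle a
  have sp := C.sep _ _ hc
  have e1 : C.R t.1 * C.ux t ≤ C.R t.1 := by nlinarith
  have e2 : -C.R t.1 ≤ C.R t.1 * C.ux t := by nlinarith
  have e3 : C.R t.1 * C.uy t ≤ C.R t.1 := by nlinarith
  have e4 : -C.R t.1 ≤ C.R t.1 * C.uy t := by nlinarith
  have q1 := sqrt3_gt
  have hj : j = 0 ∨ (j = 1 ∨ j = 2) ∨ (j = 3 ∨ j = 4) := by omega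
  have m1 : C.s a * (C.R t.1 * C.ux t) ≤ 1 / 100 * C.R t.1 := by nlinarith
  rcases lt_trichotomy (C.x a) (C.x t.1) with h | h | h
  · rw [abs_of_pos (by linarith)] at sp
    rcases hj with rfl | hj | hj
    · rcases C.fw a t.1 h with g | g
      · exact Or.inr (C.of_btw _ g)
      · exact Or.inr (C.of_half _ hc g)
    · refine Or.inl (C.of_own j ?_)
      have m2 : 99 * C.R t.1 * 0.86 ≤ (C.x t.1 - C.x a + C.R t.1 * C.ux t) * (√3 / 2) :=
        mul_le_mul (by linarith) q1.le (by norm_num) (by linarith)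
      rcases hj with rfl | rfl <;> simp only [vx, vy] <;> generalize (√3 / 2 : ℝ) = h at * <;>
        simp <;> nlinarith
    · rcases C.fr a t.1 j hj h with g | ⟨g1, g2⟩
      · exact Or.inr (C.of_btw _ g)
      · refine Or.inl (C.of_own j ?_)
        rcases hj with rfl | rfl <;> simp [vx, vy] <;> nlinarith
  · rw [h, sub_self, abs_zero] at sp
    linarith
  · rw [abs_of_neg (by linarith)] at sp
    rcases hj with rfl | hj | hj
    · refine Or.inl (C.of_own 0 ?_)
      simp [vx, vy]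
      linarith
    · rcases C.bk a t.1 j hj h with g | g
      · exact Or.inr (C.of_btw _ g)
      · exact Or.inr (C.of_half _ hc g)
    · rcases C.fl a t.1 j hj h with g | g
      · exact Or.inr (C.of_btw _ g)
      · refine Or.inl (C.of_own j ?_)
        rcases hj with rfl | rfl <;> simp [vx, vy] <;> nlinarith

end Comb

/-- A comb gives a greedy drawing. -/
theorem Comb.greedy {tg : X → Fin 5 → X} (C : Comb tg) : ∃ p, GreedyC (spG tg) p :=
  ⟨C.pos, greedy_of C.inj C.n1 C.n2⟩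

/-- Combinatorial data: the rank of `a` is `i a + δ a`; centres with the same `i` form a tight
cluster. -/
structure Good (tg : X → Fin 5 → X) where
  i : X → ℕ
  δ : X → ℕ
  n : ℕ
  π : X → Equiv.Perm (Fin 5)
  inj : ∀ a c, i a + δ a = i c + δ c → a = c
  lt : ∀ a, i a + δ a < n
  le : ∀ a, δ a ≤ 2
  mono : ∀ a c, i a + δ a < i c + δ c → i a ≤ i c
  fw : ∀ a c b, b = tg a (π a 0) → i a + δ a < i c + δ c →
    i a + δ a < i b + δ b ∧ (i b + δ b ≤ i c + δ c ∨ i a < i c)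
  bk : ∀ a c j b, j = 1 ∨ j = 2 → b = tg a (π a j) → i c + δ c < i a + δ a →
    i b + δ b < i a + δ a ∧ (i c + δ c ≤ i b + δ b ∨ (i c = i b ∧ i b < i a))
  fr : ∀ a c j b, j = 3 ∨ j = 4 → b = tg a (π a j) → δ a = 1 → i a + δ a < i c + δ c →
    i a + δ a < i b + δ b ∧ i b + δ b ≤ i c + δ c
  fl : ∀ a c j b, j = 3 ∨ j = 4 → b = tg a (π a j) → δ a = 2 → i c + δ c < i a + δ a →
    i c + δ c ≤ i b + δ b ∧ i b + δ b < i a + δ a

/-- Powers of `1 / 100`. -/
noncomputable def lam (m : ℕ) : ℝ := (1 / 100 : ℝ) ^ m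

theorem lam_pos (m : ℕ) : 0 < lam m := by unfold lam; positivity

theorem lam_add (m k : ℕ) : lam (m + k) = lam m * lam k := pow_add _ _ _

theorem lam_succ (m : ℕ) : lam (m + 1) = lam m / 100 := by unfold lam; rw [pow_succ]; ring

theorem lam_le {m k : ℕ} (h : k ≤ m) : lam m ≤ lam k :=
  pow_le_pow_of_le_one (by norm_num) (by norm_num) h

theorem lam_lt {m k : ℕ} (h : k + 1 ≤ m) : 100 * lam m ≤ lam k := by
  have h1 := lam_le h
  rw [lam_succ] at h1
  linarith

namespace Good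

variable {tg : X → Fin 5 → X} (C : Good tg)

/-- The rank. -/
def r (a : X) : ℕ := C.i a + C.δ a

/-- The abscissa. -/
noncomputable def x (a : X) : ℝ := -(lam (3 * C.i a) * (1 - (C.δ a : ℝ) / 100))

/-- The slope of the vertical spokes. -/
noncomputable def s (a : X) : ℝ :=
  if C.δ a = 0 then lam (2 * (C.n - C.r a) + 3)
  else if C.δ a = 1 then lam 1 else lam (2 * (C.n - C.r a) + 9)

theorem del_le (a : X) : (C.δ a : ℝ) ≤ 2 := by exact_mod_cast C.le a

theorem del_ge (a : X) : (0 : ℝ) ≤ C.δ a := Nat.cast_nonneg _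

theorem x_lo (a : X) : -lam (3 * C.i a) ≤ C.x a := by
  have := mul_nonneg (lam_pos (3 * C.i a)).le (C.del_ge a)
  unfold x; nlinarith

theorem x_hi (a : X) : C.x a ≤ -(0.98 * lam (3 * C.i a)) := by
  have := mul_nonneg (lam_pos (3 * C.i a)).le (sub_nonneg.2 (C.del_le a))
  unfold x; nlinarith

theorem gap_far {a c : X} (h : C.i a < C.i c) : 0.97 * lam (3 * C.i a) ≤ C.x c - C.x a := by
  have h1 := C.x_lo c
  have h2 := C.x_hi a
  have h3 : 100 * lam (3 * C.i c) ≤ lam (3 * C.i a) := lam_lt (by omega)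
  linarith

theorem gap_hi (a c : X) : C.x c - C.x a ≤ lam (3 * C.i a) := by
  have h1 := C.x_lo a
  have h2 := C.x_hi c
  have h3 := lam_pos (3 * C.i c)
  linarith

theorem gap_same {a c : X} (h : C.i a = C.i c) : C.x c - C.x a ≤ 0.02 * lam (3 * C.i c) := by
  have h1 := C.x_lo a
  have h2 := C.x_hi c
  rw [h] at h1
  linarith

theorem gap_lo {a c : X} (h : C.r a < C.r c) : lam (3 * C.i a + 1) ≤ C.x c - C.x a := by
  rw [lam_succ]
  have h0 := lam_pos (3 * C.i a)
  rcases (C.mono a c h).lt_or_eq with h1 | h1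
  · have := C.gap_far h1
    linarith
  · have h2 : C.δ a + 1 ≤ C.δ c := by unfold r at h; omega
    have h3 : (C.δ a : ℝ) + 1 ≤ C.δ c := by exact_mod_cast h2
    have := mul_nonneg h0.le (sub_nonneg.2 h3)
    unfold x
    rw [← h1]
    nlinarith

theorem x_lt {a c : X} (h : C.r a < C.r c) : C.x a < C.x c := by
  have h1 := C.gap_lo h
  have h2 := lam_pos (3 * C.i a + 1)
  linarith

theorem x_le {a c : X} (h : C.r a ≤ C.r c) : C.x a ≤ C.x c := by
  rcases h.lt_or_eq with h1 | h1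
  · exact (C.x_lt h1).le
  · rw [C.inj a c h1]

theorem r_lt {a c : X} (h : C.x a < C.x c) : C.r a < C.r c := by
  by_contra h1
  exact absurd (C.x_le (not_lt.1 h1)) (not_le.2 h)

theorem i_le (a : X) : C.i a ≤ C.r a := Nat.le_add_right _ _

theorem r_n (a : X) : C.r a < C.n := C.lt a

end Good

/-- Plan. `λ = 1 / 100`, `r a = i a + δ a`, `x a = -λ ^ (3 * i a) * (1 - δ a * λ)`,
`R a = λ ^ (r a + 2 * n + 2)`, `s a = λ ^ (2 * (n - r a) + 3)` if `δ a = 0`, `λ` if `δ a = 1`,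
`λ ^ (2 * (n - r a) + 9)` if `δ a = 2`. For `r a < r c` put `D = x c - x a`; then
`λ ^ (3 * i a + 1) ≤ D ≤ λ ^ (3 * i a)`, and `λ ^ (3 * i a) / 2 ≤ D` if `i a < i c` (which holds when
`δ c = 0`); so `x a < x c ↔ r a < r c`. All inequalities follow by comparing exponents
(`pow_le_pow_of_le_one`). -/
theorem Good.comb {tg : X → Fin 5 → X} (C : Good tg) : Nonempty (Comb tg) := by
  refine ⟨⟨C.x, fun a => lam (C.r a + 2 * C.n + 2), C.s, C.π, fun a => lam_pos _, ?_, ?_, ?_, ?_,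
    ?_, ?_, ?_⟩⟩
  · intro a
    unfold Good.s
    split_ifs <;> exact lam_pos _
  · intro a
    have h1 : lam 1 = 1 / 100 := pow_one _
    unfold Good.s
    rw [← h1]
    split_ifs <;> exact lam_le (by omega)
  · intro a c hac
    have ha := C.i_le a
    have hc := C.i_le c
    have na := C.r_n a
    have nc := C.r_n c
    rcases lt_trichotomy (C.r a) (C.r c) with h | h | h
    · have h1 := C.gap_lo h
      have h2 : 100 * lam (C.r a + 2 * C.n + 2) ≤ lam (3 * C.i a + 1) := lam_lt (by omega)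
      exact le_abs.2 (Or.inr (by linarith))
    · exact absurd (C.inj a c h) hac
    · have h1 := C.gap_lo h
      have h2 : 100 * lam (C.r a + 2 * C.n + 2) ≤ lam (3 * C.i c + 1) := lam_lt (by omega)
      exact le_abs.2 (Or.inl (by linarith))
  · intro a c hx
    have h := C.r_lt hx
    obtain ⟨h1, h2⟩ := C.fw a c _ rfl h
    generalize tg a (C.π a 0) = b at h1 h2 ⊢
    by_cases h3 : C.r b ≤ C.r c
    · exact Or.inl (Or.inl ⟨C.x_lt h1, C.x_le h3⟩)
    · have h4 : C.i a < C.i c := h2.resolve_left h3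
      have h5 := C.x_lt (not_le.1 h3)
      have h6 := C.gap_hi c b
      have h7 := C.gap_far h4
      have h8 : 100 * lam (3 * C.i c) ≤ lam (3 * C.i a) := lam_lt (by omega)
      have h9 := lam_pos (3 * C.i c)
      right
      rw [abs_of_neg (by linarith), abs_of_pos (by linarith)]
      linarith
  · intro a c j hj hx
    have h := C.r_lt hx
    obtain ⟨h1, h2⟩ := C.bk a c j _ hj rfl h
    generalize tg a (C.π a j) = b at h1 h2 ⊢
    by_cases h3 : C.r c ≤ C.r b
    · exact Or.inl (Or.inr ⟨C.x_le h3, C.x_lt h1⟩)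
    · obtain ⟨h4, h4'⟩ := h2.resolve_left h3
      have h5 := C.x_lt (not_le.1 h3)
      have h6 := C.gap_same h4.symm
      have h7 := C.gap_far (h4.trans_lt h4')
      have h9 := lam_pos (3 * C.i c)
      right
      rw [abs_of_pos (by linarith), abs_of_neg (by linarith)]
      linarith
  · intro a c j hj hx
    have h := C.r_lt hx
    by_cases h1 : C.δ a = 1
    · obtain ⟨h2, h3⟩ := C.fr a c j _ hj rfl h1 h
      exact Or.inl (Or.inl ⟨C.x_lt h2, C.x_le h3⟩)
    right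
    have na := C.r_n a
    have hd := C.le a
    have hr : C.r a = C.i a + C.δ a := rfl
    have h2 : 100 * lam (C.r c + 2 * C.n + 2) ≤ lam (C.r a + 2 * C.n + 2) := lam_lt (by omega)
    have h3 := lam_pos (C.r c + 2 * C.n + 2)
    refine ⟨by linarith, ?_⟩
    obtain ⟨e, he, he'⟩ : ∃ e, C.s a = lam e ∧ C.r a + 2 * C.n + 2 + 1 ≤ e + 3 * C.i a := by
      unfold Good.s
      split_ifs
      · exact ⟨_, rfl, by omega⟩
      · exact ⟨_, rfl, by omega⟩
    have h4 := lam_lt he'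
    have h5 := mul_le_mul_of_nonneg_left (C.gap_hi a c) (lam_pos e).le
    have h6 := lam_pos (e + 3 * C.i a)
    rw [lam_add e] at h4 h6
    rw [he]
    linarith
  · intro a c j hj hx
    have h := C.r_lt hx
    by_cases h1 : C.δ a = 2
    · obtain ⟨h2, h3⟩ := C.fl a c j _ hj rfl h1 h
      exact Or.inl (Or.inr ⟨C.x_le h2, C.x_lt h3⟩)
    right
    have na := C.r_n a
    have hd := C.le a
    have hr : C.r a = C.i a + C.δ a := rfl
    have hc := C.i_le c
    have h3 := lam_pos (C.r c + 2 * C.n + 2)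
    by_cases h0 : C.δ a = 0
    · have hm := C.mono c a h
      have h2 : C.i c < C.i a := by omega
      have he : C.s a = lam (2 * (C.n - C.r a) + 3) := if_pos h0
      have h4 : 100 * lam (C.r c + 2 * C.n + 2) ≤ lam (2 * (C.n - C.r a) + 3 + 3 * C.i c) :=
        lam_lt (by omega)
      have h5 := mul_le_mul_of_nonneg_left (C.gap_far h2) (lam_pos (2 * (C.n - C.r a) + 3)).le
      rw [lam_add (2 * (C.n - C.r a) + 3)] at h4
      rw [he]
      linarith
    · have he : C.s a = lam 1 := by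
        unfold Good.s
        rw [if_neg h0, if_pos (by omega)]
      have h4 : 100 * lam (C.r c + 2 * C.n + 2) ≤ lam (1 + (3 * C.i c + 1)) := lam_lt (by omega)
      have h5 := mul_le_mul_of_nonneg_left (C.gap_lo h) (lam_pos 1).le
      rw [lam_add 1] at h4
      rw [he]
      linarith

/-- Reachability inside a set of vertices. -/
def Rch (tg : X → Fin 5 → X) (S : Set (Vx X)) : Vx X → Vx X → Prop :=
  Relation.ReflTransGen fun u v => (spG tg).Adj u v ∧ u ∈ S ∧ v ∈ S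

section Rch

variable {tg : X → Fin 5 → X} {S : Set (Vx X)}

theorem Rch.trans {u v w : Vx X} (h : Rch tg S u v) (h' : Rch tg S v w) : Rch tg S u w :=
  Relation.ReflTransGen.trans h h'

theorem Rch.single {u v : Vx X} (h : (spG tg).Adj u v) (hu : u ∈ S) (hv : v ∈ S) : Rch tg S u v :=
  Relation.ReflTransGen.single ⟨h, hu, hv⟩

theorem Rch.symm {u v : Vx X} (h : Rch tg S u v) : Rch tg S v u := by
  induction h with
  | refl => exact Relation.ReflTransGen.refl
  | tail _ h2 ih => exact (Rch.single h2.1.symm h2.2.2 h2.2.1).trans ih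

theorem Rch.mem {u v : Vx X} (h : Rch tg S u v) (hu : u ∈ S) : v ∈ S := by
  induction h with
  | refl => exact hu
  | tail _ h2 _ => exact h2.2.2

theorem Rch.reach {u v : Vx X} (h : Rch tg S u v) (hu : u ∈ S) (hv : v ∈ S) :
    ((spG tg).induce S).Reachable ⟨u, hu⟩ ⟨v, hv⟩ := by
  induction h with
  | refl => exact SimpleGraph.Reachable.refl _
  | tail _ h2 ih =>
    exact (ih h2.2.1).trans (SimpleGraph.Adj.reachable (by simpa using h2.1))

theorem Rch.link {a : X} {k : Fin 5} (ha : (a, none) ∈ S) (hk : (a, some k) ∈ S)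
    (hb : (tg a k, none) ∈ S) : Rch tg S (a, none) (tg a k, none) :=
  (Rch.single (spG_adj_own tg a k).symm ha hk).trans (Rch.single (spG_adj_tg tg a k) hk hb)

theorem Rch.link' {a b : X} {k : Fin 5} (h : tg a k = b ∨ tg b k = a) (ha : (a, none) ∈ S)
    (hb : (b, none) ∈ S) (h1 : tg a k = b → (a, some k) ∈ S) (h2 : tg b k = a → (b, some k) ∈ S) :
    Rch tg S (a, none) (b, none) := by
  rcases h with h | h
  · subst h
    exact Rch.link ha (h1 rfl) hb
  · subst h
    exact (Rch.link hb (h2 rfl) ha).symm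

theorem Rch.desc (ρ : X → ℕ) (z : X) (A : X → Prop)
    (h : ∀ a, A a → a ≠ z → ∃ b, ρ b < ρ a ∧ A b ∧ Rch tg S (a, none) (b, none)) (a : X)
    (ha : A a) : Rch tg S (a, none) (z, none) := by
  induction hn : ρ a using Nat.strong_induction_on generalizing a with
  | _ n ih =>
    by_cases hz : a = z
    · subst hz
      exact Relation.ReflTransGen.refl
    · obtain ⟨b, h1, h2, h3⟩ := h a ha hz
      exact h3.trans (ih _ (hn ▸ h1) b h2 rfl)

theorem Rch.asc [Finite X] (ρ : X → ℕ) (z : X) (A : X → Prop)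
    (h : ∀ a, A a → a ≠ z → ∃ b, ρ a < ρ b ∧ A b ∧ Rch tg S (a, none) (b, none)) (a : X)
    (ha : A a) : Rch tg S (a, none) (z, none) := by
  obtain ⟨M, hM⟩ := (Set.finite_range ρ).bddAbove
  refine Rch.desc (fun a => M - ρ a) z A (fun a ha hz => ?_) a ha
  obtain ⟨b, h1, h2, h3⟩ := h a ha hz
  have h4 : ρ b ≤ M := hM ⟨b, rfl⟩
  exact ⟨b, by omega, h2, h3⟩

theorem connected_of_rch (hn : S.Nonempty)
    (hc : ∀ a b, (a, none) ∈ S → (b, none) ∈ S → Rch tg S (a, none) (b, none))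
    (hs : ∀ a k, (a, some k) ∈ S → (a, none) ∈ S ∨ (tg a k, none) ∈ S) :
    ((spG tg).induce S).Connected := by
  have key : ∀ u ∈ S, ∃ a, (a, none) ∈ S ∧ Rch tg S u (a, none) := by
    rintro ⟨a, _ | k⟩ hu
    · exact ⟨a, hu, Relation.ReflTransGen.refl⟩
    · rcases hs a k hu with h | h
      · exact ⟨a, h, Rch.single (spG_adj_own tg a k) hu h⟩
      · exact ⟨_, h, Rch.single (spG_adj_tg tg a k) hu h⟩
  have : Nonempty S := hn.to_subtype
  refine ⟨fun u v => ?_⟩
  obtain ⟨a, ha, ha'⟩ := key u.1 u.2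
  obtain ⟨b, hb, hb'⟩ := key v.1 v.2
  exact ((ha'.trans (hc a b ha hb)).trans hb'.symm).reach u.2 v.2

theorem rch_of_split {bot top : X} (A B : X → Prop)
    (hA : ∀ a, A a → Rch tg S (a, none) (bot, none))
    (hB : ∀ a, B a → Rch tg S (a, none) (top, none))
    (hj : (top, none) ∈ S → (bot, none) ∈ S → Rch tg S (top, none) (bot, none))
    (hAB : ∀ a, (a, none) ∈ S → A a ∨ B a) (a b : X) (ha : (a, none) ∈ S) (hb : (b, none) ∈ S) :
    Rch tg S (a, none) (b, none) := by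
  rcases hAB a ha with h1 | h1 <;> rcases hAB b hb with h2 | h2
  · exact (hA a h1).trans (hA b h2).symm
  · exact ((hA a h1).trans (hj ((hB b h2).mem hb) ((hA a h1).mem ha)).symm).trans (hB b h2).symm
  · exact ((hB a h1).trans (hj ((hB a h1).mem ha) ((hA b h2).mem hb))).trans (hA b h2).symm
  · exact (hB a h1).trans (hB b h2).symm

end Rch

/-- Plan. Removing a centre `v`: a centre `a ≠ v` with `ρ a ≤ ρ v` descends to `bot`, one with
`ρ v < ρ a` ascends to `top` (strong induction; all if `v = top` descend, all if `v = bot` ascend),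
`top` and `bot` are joined by a spoke, and each spoke has an end different from `v`.
Removing a spoke with ends `a₀, b₀` and `m = max (ρ a₀) (ρ b₀)`: centres with `ρ a < m` descend,
the others ascend, without using that spoke; one of the two spokes from `top` to `bot` survives. -/
theorem biconnected_of_rank [Finite X] {tg : X → Fin 5 → X} (hne : ∀ a k, tg a k ≠ a) (ρ : X → ℕ)
    (bot top : X) (h1 : ∀ a, a ≠ bot → ∃ b k, ρ b < ρ a ∧ (tg a k = b ∨ tg b k = a))
    (h2 : ∀ a, a ≠ top → ∃ b k, ρ a < ρ b ∧ (tg a k = b ∨ tg b k = a))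
    (h3 : ∃ k m, k ≠ m ∧ tg top k = bot ∧ tg top m = bot) : Biconnected (spG tg) := by
  obtain ⟨k₁, k₂, hk, hk₁, hk₂⟩ := h3
  refine ⟨?_, ?_, ?_⟩
  · have : Nonempty X := ⟨top⟩
    have h4 : 0 < Nat.card X := Nat.card_pos
    have h5 : Nat.card (Option (Fin 5)) = 6 := by simp
    rw [Nat.card_prod, h5]
    omega
  · rw [← (SimpleGraph.induceUnivIso (spG tg)).connected_iff]
    have hA : ∀ a, Rch tg Set.univ (a, none) (bot, none) := fun a =>
      Rch.desc ρ bot (fun _ => True) (fun a _ hz => by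
        obtain ⟨b, k, hb, hab⟩ := h1 a hz
        exact ⟨b, hb, trivial, Rch.link' hab trivial trivial (fun _ => trivial) fun _ => trivial⟩)
        a trivial
    exact connected_of_rch ⟨(top, none), trivial⟩ (fun a b _ _ => (hA a).trans (hA b).symm)
      fun _ _ _ => Or.inl trivial
  · rintro ⟨c, _ | k₀⟩
    · have hs : ∀ (a : X) (k : Fin 5), (a, some k) ∈ ({(c, none)}ᶜ : Set (Vx X)) := by simp
      have hc : ∀ a : X, (a, none) ∈ ({(c, none)}ᶜ : Set (Vx X)) ↔ a ≠ c := by simp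
      refine connected_of_rch ⟨_, hs c 0⟩
        (rch_of_split (bot := bot) (top := top) (fun a => a ≠ c ∧ ρ a ≤ ρ c) (fun a => ρ c < ρ a)
          (Rch.desc ρ bot _ fun a ha hz => ?_) (Rch.asc ρ top _ fun a ha hz => ?_)
          (fun ht hb => ?_) fun a ha => ?_) fun a k _ => ?_
      · obtain ⟨b, k, hb, hab⟩ := h1 a hz
        have hbc : b ≠ c := by
          rintro rfl
          exact absurd ha.2 (not_le.2 hb)
        exact ⟨b, hb, ⟨hbc, hb.le.trans ha.2⟩, Rch.link' hab ((hc a).2 ha.1) ((hc b).2 hbc)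
          (fun _ => hs _ _) fun _ => hs _ _⟩
      · obtain ⟨b, k, hb, hab⟩ := h2 a hz
        have hac : a ≠ c := by
          rintro rfl
          exact lt_irrefl _ ha
        have hbc : b ≠ c := by
          rintro rfl
          exact lt_asymm ha hb
        exact ⟨b, hb, ha.trans hb, Rch.link' hab ((hc a).2 hac) ((hc b).2 hbc)
          (fun _ => hs _ _) fun _ => hs _ _⟩
      · exact Rch.link' (Or.inl hk₁) ht hb (fun _ => hs _ _) fun _ => hs _ _
      · rcases le_or_gt (ρ a) (ρ c) with h | h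
        · exact Or.inl ⟨(hc a).1 ha, h⟩
        · exact Or.inr h
      · by_cases h : a = c
        · exact Or.inr ((hc _).2 (h ▸ hne a k))
        · exact Or.inl ((hc _).2 h)
    · have hc : ∀ a : X, (a, none) ∈ ({(c, some k₀)}ᶜ : Set (Vx X)) := by simp
      have hs : ∀ (a : X) (k : Fin 5), (a, some k) ∈ ({(c, some k₀)}ᶜ : Set (Vx X)) ↔
          ¬(a = c ∧ k = k₀) := by simp
      refine connected_of_rch ⟨_, hc c⟩
        (rch_of_split (bot := bot) (top := top) (fun a => ρ a < max (ρ c) (ρ (tg c k₀)))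
          (fun a => max (ρ c) (ρ (tg c k₀)) ≤ ρ a)
          (Rch.desc ρ bot _ fun a ha hz => ?_) (Rch.asc ρ top _ fun a ha hz => ?_)
          (fun ht hb => ?_) fun a _ => lt_or_ge _ _) fun a k _ => Or.inl (hc a)
      · obtain ⟨b, k, hb, hab⟩ := h1 a hz
        refine ⟨b, hb, hb.trans ha, Rch.link' hab (hc a) (hc b) (fun h => (hs _ _).2 ?_)
          fun h => (hs _ _).2 ?_⟩
        · rintro ⟨rfl, rfl⟩
          rw [h] at ha
          omega
        · rintro ⟨rfl, rfl⟩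
          rw [h] at ha
          omega
      · obtain ⟨b, k, hb, hab⟩ := h2 a hz
        refine ⟨b, hb, ha.trans hb.le, Rch.link' hab (hc a) (hc b) (fun h => (hs _ _).2 ?_)
          fun h => (hs _ _).2 ?_⟩
        · rintro ⟨rfl, rfl⟩
          rw [h] at ha
          omega
        · rintro ⟨rfl, rfl⟩
          rw [h] at ha
          omega
      · by_cases h : k₁ = k₀
        · subst hk₂
          exact Rch.link ht ((hs _ _).2 fun h' => hk (h.trans h'.2.symm)) hb
        · subst hk₁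
          exact Rch.link ht ((hs _ _).2 fun h' => h h'.2) hb

end Pool.Agent.MP_06c78e_co.H40
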